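import Pool.Agent.TFU.Defs
import Pool.Agent.TFP.Cls

set_option autoImplicit false

/-!
# TFU-Cls: the edge sets of multigraphs
-/

namespace Pool.Agent.TFU

open Finset Pool.Agent.Helper47.TR Pool.Agent.TFP

theorem cl_mg {G : MG} (hG : Valid G) {D : ℕ} (hD : ∀ v, deg G v ≤ D) :
    Cl (range G.1.length) D (nlE G.2).toFinset := by
  obtain ⟨h1, h2, h3, -⟩ := cl_zero hG (lam := 1) (y := 0) one_pos le_rfl one_pos hD
  exact ⟨h1, h2, h3⟩

private theorem len_labE (l : List (ℕ × ℕ)) : (labE l).length = l.length := by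
  induction l with
  | nil => rfl
  | cons e l ih =>
    change ((labE l).length, e).1 + 1 = l.length + 1
    rw [ih]

private theorem get_of_mem_labE (l : List (ℕ × ℕ)) : ∀ x ∈ labE l,
    ∃ j : Fin l.length, l.get j = x.2 ∧ x.1 + 1 + (j : ℕ) = l.length := by
  induction l with
  | nil =>
    intro x hx
    change x ∈ ([] : List Ed) at hx
    simp at hx
  | cons e l ih =>
    intro x hx
    change x ∈ ((labE l).length, e) :: labE l at hx
    rw [List.mem_cons] at hx
    rcases hx with rfl | hx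
    · refine ⟨⟨0, by simp⟩, rfl, ?_⟩
      simp only [List.length_cons]
      rw [len_labE]
    · obtain ⟨j, hj1, hj2⟩ := ih x hx
      refine ⟨j.succ, ?_, ?_⟩
      · rw [← hj1]
        rfl
      · simp only [Fin.val_succ, List.length_cons]
        omega

private theorem mem_nlE' {l : List (ℕ × ℕ)} {x : Ed} (hx : x ∈ (nlE l).toFinset) :
    x ∈ labE l ∧ x.2.1 ≠ x.2.2 := by
  rw [List.mem_toFinset] at hx
  unfold nlE at hx
  rw [List.mem_filter] at hx
  refine ⟨hx.1, ?_⟩
  simpa using hx.2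

theorem sim_mg {G : MG} (hS : NoPar G) : Sim (nlE G.2).toFinset := by
  intro e he f hf v u hJe hJf
  by_contra hfe
  obtain ⟨i, hi1, hi2⟩ := get_of_mem_labE _ _ (mem_nlE' he).1
  obtain ⟨j, hj1, hj2⟩ := get_of_mem_labE _ _ (mem_nlE' hf).1
  have hij : i ≠ j := by
    intro h4
    subst h4
    apply hfe
    refine Prod.ext (by omega) (hi1.symm.trans hj1)
  have h6 := hS i j hij (by
    rw [hi1]
    exact (mem_nlE' he).2)
  rw [hi1, hj1] at h6
  rcases hJe with ⟨h7, h8⟩ | ⟨h7, h8⟩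
  · rcases hJf with ⟨h9, h10⟩ | ⟨h9, h10⟩
    · exact h6.1 (Prod.ext (h7.trans h9.symm) (h8.trans h10.symm))
    · exact h6.2 (Prod.ext (h7.trans h10.symm) (h8.trans h9.symm))
  · rcases hJf with ⟨h9, h10⟩ | ⟨h9, h10⟩
    · exact h6.2 (Prod.ext (h7.trans h10.symm) (h8.trans h9.symm))
    · exact h6.1 (Prod.ext (h7.trans h9.symm) (h8.trans h10.symm))

end Pool.Agent.TFU
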