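import Pool.Agent.TFU.Defs
import Pool.Agent.TFP.ZEr
import Pool.Agent.TFN.WId
import Pool.Agent.TFN.Br

set_option autoImplicit false

/-!
# TFU-PCon: the probability that `u` is in the cluster of `v`, and the probability of a restart
-/

namespace Pool.Agent.TFU

open Finset Pool.Agent.TFP

variable {lam y : ℚ}

private theorem pc_out {G : Finset Ed} (hG : NL G) (K : Finset ℕ) : NL (out K G) := by
  intro e he
  exact hG e (Finset.mem_filter.1 he).1

private theorem pc_ends (G : Finset Ed) (K : Finset ℕ) : ends (out K G) ⊆ ends G :=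
  ends_mono (Finset.filter_subset _ _)

theorem con_id (hl : 0 < lam) (hy0 : 0 ≤ y) (hy1 : y < 1) {G : Finset Ed} (hG : NL G)
    (V : Finset ℕ) {v u : ℕ} (hvu : v ≠ u) (R : Finset ℕ → ℚ) :
    ∑ S ∈ V.powerset, q lam y G v S * (if u ∈ S then R S else 0) =
      lam * ∑ K ∈ V.powerset, q lam y G u K * ((if v ∈ K then 0 else TFN.br y (btw v K G).card) *
        ∑ S ∈ V.powerset, q lam y (out K G) v S * R (K ∪ S)) := by
  have hβ : y - 1 ≠ 0 := by linarith
  have hZ : Z lam y G ≠ 0 := (Z_pos hl hy0 hy1 hG).ne'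
  have h1 : ∑ S ∈ V.powerset, q lam y G v S * (if u ∈ S then R S else 0) =
      (∑ S ∈ V.powerset, ww (lam / (y - 1)) (y - 1) G v S * (if u ∈ S then R S else 0)) / Z lam y G := by
    rw [Finset.sum_div]
    refine Finset.sum_congr rfl fun S _ => ?_
    unfold q
    ring
  rw [h1, TFN.W_id2 (lam / (y - 1)) (y - 1) hvu V R, mul_div_assoc, Finset.sum_div, Finset.mul_sum,
    Finset.mul_sum]
  refine Finset.sum_congr rfl fun K _ => ?_
  have hZ' : Z lam y (out K G) ≠ 0 := (Z_pos hl hy0 hy1 (pc_out hG K)).ne'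
  have h2 : ∑ S ∈ V.powerset, q lam y (out K G) v S * R (K ∪ S) =
      (∑ S ∈ V.powerset, ww (lam / (y - 1)) (y - 1) (out K G) v S * R (K ∪ S)) / Z lam y (out K G) := by
    rw [Finset.sum_div]
    refine Finset.sum_congr rfl fun S _ => ?_
    unfold q
    ring
  have h3 : q lam y G u K = (if u ∈ K then (lam / (y - 1)) ^ (K.card - 1) * cc (y - 1) K G else 0) *
      Z lam y (out K G) / Z lam y G := by
    unfold q ww
    split_ifs
    · rfl
    · simp
  have h4 : (if v ∈ K then (0 : ℚ) else (1 + (y - 1)) ^ (btw v K G).card - 1) =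
      (y - 1) * (if v ∈ K then 0 else TFN.br y (btw v K G).card) := by
    split_ifs
    · rw [mul_zero]
    · rw [TFN.br_geom]
      congr 2
      ring
  rw [h2, h3, h4]
  have h5 : lam / (y - 1) * (y - 1) = lam := div_mul_cancel₀ _ hβ
  generalize (∑ S ∈ V.powerset, ww (lam / (y - 1)) (y - 1) (out K G) v S * R (K ∪ S)) = W
  generalize (if u ∈ K then (lam / (y - 1)) ^ (K.card - 1) * cc (y - 1) K G else 0) = c
  generalize (if v ∈ K then (0 : ℚ) else TFN.br y (btw v K G).card) = b
  generalize Z lam y (out K G) = z' at hZ'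
  generalize Z lam y G = z at hZ
  calc lam / (y - 1) * ((y - 1) * b * c * W / z) = lam / (y - 1) * (y - 1) * (b * c * W / z) := by ring
    _ = lam * (b * c * W / z) := by rw [h5]
    _ = lam * (c * z' / z * (b * (W / z'))) := by
        field_simp

theorem q_symm (lam y : ℚ) (G : Finset Ed) (v u : ℕ) (S : Finset ℕ) :
    q lam y G v S * (if u ∈ S then 1 else 0) = q lam y G u S * (if v ∈ S then 1 else 0) := by
  unfold q ww
  by_cases hv : v ∈ S <;> by_cases hu : u ∈ S <;> simp [hv, hu]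

theorem Pc_symm (lam y : ℚ) (V : Finset ℕ) (G : Finset Ed) (u v : ℕ) :
    Pc lam y V G u v = Pc lam y V G v u := by
  unfold Pc
  exact Finset.sum_congr rfl fun K _ => q_symm lam y G u v K

/-- the probability that `u` and `v` are in one cluster, by the number of edges between `v` and the
cluster of `u` -/
theorem Pc_eq (hl : 0 < lam) (hy0 : 0 ≤ y) (hy1 : y < 1) {G : Finset Ed} (hG : NL G)
    {V : Finset ℕ} (hV : ends G ⊆ V) {v u : ℕ} (hvu : v ≠ u) (hv : v ∈ V) :
    Pc lam y V G u v = lam * ∑ K ∈ V.powerset, q lam y G u K *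
      (if v ∈ K then 0 else TFN.br y (btw v K G).card) := by
  rw [Pc_symm]
  have h1 := con_id hl hy0 hy1 hG V hvu (fun _ => 1)
  unfold Pc
  rw [h1]
  congr 1
  refine Finset.sum_congr rfl fun K _ => ?_
  have h2 : ∑ S ∈ V.powerset, q lam y (out K G) v S * 1 = 1 := by
    have h3 := q_sum hl hy0 hy1 (pc_out hG K) ((pc_ends G K).trans hV) hv
    exact (Finset.sum_congr rfl fun S _ => mul_one _).trans h3
  rw [h2, mul_one]

theorem Pc_nonneg (hl : 0 < lam) (hy0 : 0 ≤ y) (hy1 : y < 1) {G : Finset Ed} (hG : NL G)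
    (V : Finset ℕ) (u v : ℕ) : 0 ≤ Pc lam y V G u v := by
  unfold Pc
  refine Finset.sum_nonneg fun K _ => mul_nonneg (q_nonneg hl hy0 hy1 hG u K) ?_
  split_ifs
  · exact zero_le_one
  · exact le_rfl

theorem Pc_le_one (hl : 0 < lam) (hy0 : 0 ≤ y) (hy1 : y < 1) {G : Finset Ed} (hG : NL G)
    {V : Finset ℕ} (hV : ends G ⊆ V) {u : ℕ} (hu : u ∈ V) (v : ℕ) : Pc lam y V G u v ≤ 1 := by
  have h1 : Pc lam y V G u v ≤ ∑ K ∈ V.powerset, q lam y G u K := by
    unfold Pc
    refine Finset.sum_le_sum fun K _ => mul_le_of_le_one_right (q_nonneg hl hy0 hy1 hG u K) ?_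
    split_ifs
    · exact le_refl (1 : ℚ)
    · exact zero_le_one
  rwa [q_sum hl hy0 hy1 hG hV hu] at h1

/-- the probability that the cluster of `u` is not accepted -/
theorem one_sub_th (hl : 0 < lam) (hy0 : 0 ≤ y) (hy1 : y < 1) {G : Finset Ed} (hG : NL G)
    {V : Finset ℕ} (hV : ends G ⊆ V) {v u : ℕ} (hvu : v ≠ u) (hv : v ∈ V) (hu : u ∈ V) :
    1 - th lam y V G u v = Pc lam y V G u v * (1 + (1 - y) / lam) := by
  have h1 := Pc_eq hl hy0 hy1 hG hV hvu hv
  have h2 : ∑ K ∈ V.powerset, q lam y G u K * (if v ∈ K then 0 else TFN.br y (btw v K G).card) =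
      Pc lam y V G u v / lam := by
    rw [h1]
    field_simp
  have h3 : 1 - th lam y V G u v = Pc lam y V G u v + (1 - y) * (Pc lam y V G u v / lam) := by
    rw [← h2]
    have h4 : 1 - th lam y V G u v =
        ∑ K ∈ V.powerset, (q lam y G u K - q lam y G u K * thK y v K G) := by
      rw [Finset.sum_sub_distrib, q_sum hl hy0 hy1 hG hV hu]
      rfl
    rw [h4, Finset.mul_sum]
    unfold Pc
    rw [← Finset.sum_add_distrib]
    refine Finset.sum_congr rfl fun K _ => ?_
    unfold thK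
    split_ifs
    · ring
    · have h5 := TFN.br_geom y (btw v K G).card
      linear_combination (q lam y G u K) * h5
  rw [h3]
  field_simp

theorem Pr_eq (hl : 0 < lam) (hy0 : 0 ≤ y) (hy1 : y < 1) {G : Finset Ed} (hG : NL G)
    {V : Finset ℕ} (hV : ends G ⊆ V) {v u : ℕ} (hvu : v ≠ u) (hv : v ∈ V) (hu : u ∈ V) :
    Pr lam y V G u v = Pc lam y V G u v * (1 - y / (1 + lam)) := by
  have hl1 : (1 + lam) ≠ 0 := by positivity
  unfold Pr
  rw [one_sub_th hl hy0 hy1 hG hV hvu hv hu]
  field_simp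
  ring

end Pool.Agent.TFU
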