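import Pool.Agent.TFU.Vol
import Pool.Agent.TFU.PCon
import Pool.Agent.TFP.Key

set_option autoImplicit false

/-!
# TFU-Dc: the decrease of the potential at an evaluation step
-/

namespace Pool.Agent.TFU

open Finset Pool.Agent.TFP

variable {lam y : ℚ}

theorem mem_V {G : Finset Ed} {V : Finset ℕ} (hV : ends G ⊆ V) {e : Ed} (he : e ∈ G)
    {v u : ℕ} (hJ : Jn e v u) : v ∈ V ∧ u ∈ V := by
  have h1 := hV (mem_ends_left he)
  have h2 := hV (mem_ends_right he)
  rcases hJ with ⟨a, b⟩ | ⟨a, b⟩
  · rw [← a, ← b]; exact ⟨h1, h2⟩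
  · rw [← a, ← b]; exact ⟨h2, h1⟩

theorem ne_of {G : Finset Ed} (hG : NL G) {e : Ed} (he : e ∈ G) {v u : ℕ} (hJ : Jn e v u) :
    v ≠ u := by
  have hne := hG e he
  rcases hJ with ⟨a, b⟩ | ⟨a, b⟩
  · rw [← a, ← b]; exact hne
  · rw [← a, ← b]; exact hne.symm

theorem Cl.mono {V : Finset ℕ} {D : ℕ} {G H : Finset Ed} (hG : Cl V D G) (h : H ⊆ G) :
    Cl V D H :=
  ⟨hG.1.mono h, (ends_mono h).trans hG.2.1,
    fun v => (card_le_card (filter_subset_filter _ h)).trans (hG.2.2 v)⟩

/-- the closed branch -/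
private theorem dc_one (hl : 0 < lam) (hy0 : 0 ≤ y) (hy1 : y < 1) {V : Finset ℕ} {D : ℕ}
    {G : Finset Ed} (hG : Cl V D G) {e : Ed} (he : e ∈ G) {v u : ℕ} (hJ : Jn e v u)
    (α A M : ℚ) :
    ∑ S ∈ V.powerset, q lam y (G.erase e) v S * hh α A M D G S =
      nE lam y V α A M D (G.erase e) v + (A + M) * (1 + Pc lam y V (G.erase e) u v) := by
  have hvu := ne_of hG.1 he hJ
  obtain ⟨hv, hu⟩ := mem_V hG.2.1 he hJ
  have hG' := hG.mono (erase_subset e G)
  have h1 : ∀ S ∈ V.powerset, q lam y (G.erase e) v S * hh α A M D G S =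
      q lam y (G.erase e) v S * hh α A M D (G.erase e) S +
        (A + M) * (q lam y (G.erase e) v S + q lam y (G.erase e) v S * (if u ∈ S then 1 else 0)) := by
    intro S _
    by_cases hS : v ∈ S
    · have h2 := vol_erase he hvu hJ S
      rw [if_pos hS] at h2
      unfold hh
      rw [h2]
      ring
    · rw [q_not_mem _ hS]
      ring
  rw [sum_congr rfl h1, sum_add_distrib, ← mul_sum, sum_add_distrib,
    q_sum hl hy0 hy1 hG'.1 hG'.2.1 hv, Pc_symm]
  rfl

/-- the inner sum of the open branch -/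
private theorem dc_two (hl : 0 < lam) (hy0 : 0 ≤ y) (hy1 : y < 1) {V : Finset ℕ} {D : ℕ}
    {G : Finset Ed} (hG : Cl V D G) {e : Ed} (he : e ∈ G) {v u : ℕ} (hJ : Jn e v u)
    {α A M : ℚ} (hA : 0 ≤ A) (hM : 0 ≤ M) {K : Finset ℕ} (huK : u ∈ K) (hvK : v ∉ K) :
    nE lam y V α A M D (out K (G.erase e)) v + hh α A M D (G.erase e) K - α - M * D +
        2 * (A + M) + (A + M) * ∑ S ∈ V.powerset, q lam y (out K (G.erase e)) v S *
          (if (crs K S (G.erase e)).card = 0 then 0 else 1) ≤
      ∑ S ∈ V.powerset, q lam y (out K (G.erase e)) v S * hh α A M D G (K ∪ S) := by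
  have hvu := ne_of hG.1 he hJ
  obtain ⟨hv, hu⟩ := mem_V hG.2.1 he hJ
  have hG' := hG.mono (erase_subset e G)
  have hGo : Cl V D (out K (G.erase e)) := hG'.mono (filter_subset _ _)
  have hqs := q_sum hl hy0 hy1 hGo.1 hGo.2.1 hv
  have h1 : ∀ S ∈ V.powerset, q lam y (out K (G.erase e)) v S * hh α A M D (out K (G.erase e)) S +
      q lam y (out K (G.erase e)) v S * (hh α A M D (G.erase e) K - α - M * D + 2 * (A + M)) +
      (A + M) * (q lam y (out K (G.erase e)) v S *
        (if (crs K S (G.erase e)).card = 0 then 0 else 1)) ≤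
      q lam y (out K (G.erase e)) v S * hh α A M D G (K ∪ S) := by
    intro S _
    by_cases hd : Disjoint K S
    · by_cases hS : v ∈ S
      · have hq := q_nonneg hl hy0 hy1 hGo.1 v S
        have h2 := vol_erase he hvu hJ (K ∪ S)
        rw [if_pos (mem_union_right _ hS), if_pos (mem_union_left _ huK),
          vol_cross (G := G.erase e) hd] at h2
        have h3 : ((K ∪ S).card : ℚ) = K.card + S.card := by
          rw [card_union_of_disjoint hd]
          push_cast
          rfl
        have h4 : (if (crs K S (G.erase e)).card = 0 then (0 : ℚ) else 1) ≤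
            (crs K S (G.erase e)).card := by
          split_ifs with h5
          · exact Nat.cast_nonneg _
          · have h6 : 1 ≤ (crs K S (G.erase e)).card := Nat.one_le_iff_ne_zero.2 h5
            exact_mod_cast h6
        have h5 : hh α A M D (out K (G.erase e)) S +
            (hh α A M D (G.erase e) K - α - M * D + 2 * (A + M)) +
            (A + M) * (crs K S (G.erase e)).card = hh α A M D G (K ∪ S) := by
          unfold hh
          rw [h2, h3]
          ring
        rw [← h5]
        have h6 := mul_le_mul_of_nonneg_left (mul_le_mul_of_nonneg_left h4 (add_nonneg hA hM)) hq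
        linarith
      · rw [q_not_mem _ hS]
        simp
    · rw [q_out_zero hvK hd]
      simp
  have h2 := sum_le_sum h1
  rw [sum_add_distrib, sum_add_distrib, ← sum_mul, ← mul_sum, hqs] at h2
  have h3 : ∑ S ∈ V.powerset, q lam y (out K (G.erase e)) v S *
      hh α A M D (out K (G.erase e)) S = nE lam y V α A M D (out K (G.erase e)) v := rfl
  rw [h3] at h2
  linarith

theorem Dc_main (hl : 0 < lam) (hy0 : 0 ≤ y) (hy1 : y < 1) {V : Finset ℕ} {D : ℕ}
    {G : Finset Ed} (hG : Cl V D G) {e : Ed} (he : e ∈ G) {v u : ℕ} (hJ : Jn e v u)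
    {α A M κ m : ℚ} (hA : 0 ≤ A) (hM : 0 ≤ M) (hκ : 0 ≤ κ) (hm : (G.card : ℚ) ≤ m) :
    A * (1 + lam / (1 + lam) - (2 * m + 2) * Pr lam y V (G.erase e) u v) +
        M * (1 - lam / (1 + lam) * (D - 1) +
          (Pc lam y V (G.erase e) u v - Pr lam y V (G.erase e) u v) +
          lam / (1 + lam) * Ga lam y V (G.erase e) u v) -
        α * (lam / (1 + lam)) - 2 * (lam / (1 + lam)) * κ ≤
      Dcost lam y V (nE lam y V α A M D) κ G v u e := by
  have hvu := ne_of hG.1 he hJ
  obtain ⟨hv, hu⟩ := mem_V hG.2.1 he hJ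
  have hG' := hG.mono (erase_subset e G)
  have hm0 : 0 ≤ m := le_trans (Nat.cast_nonneg _) hm
  have hp0 : 0 ≤ lam / (1 + lam) := by positivity
  have hp1 : 1 / (1 + lam) = 1 - lam / (1 + lam) := by
    have : (1 + lam) ≠ 0 := by positivity
    field_simp
    ring
  have hqs := q_sum hl hy0 hy1 hG'.1 hG'.2.1 hu
  have hPc0 := Pc_nonneg hl hy0 hy1 hG'.1 V u v
  have hth0 := th_nonneg hl hy0 hy1 hG'.1 V u v
  have hth1 := th_le_one hl hy0 hy1 hG'.1 hG'.2.1 hu v
  have hGa0 : 0 ≤ Ga lam y V (G.erase e) u v := by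
    unfold Ga
    refine sum_nonneg fun K _ => mul_nonneg (q_nonneg hl hy0 hy1 hG'.1 u K)
      (mul_nonneg (thK_nonneg hy0 v K _) (sum_nonneg fun S _ => mul_nonneg
        (q_nonneg hl hy0 hy1 (hG'.mono (filter_subset _ _)).1 v S) ?_))
    split_ifs
    · exact le_rfl
    · exact zero_le_one
  have hkey := key hl hy0 hy1 hG.1 hG.2.1 he hJ (hh α A M D G)
  have h1 := dc_one hl hy0 hy1 hG he hJ α A M
  -- the open branch
  have h2 : ∀ K ∈ V.powerset, q lam y (G.erase e) u K * (thK y v K (G.erase e) *
        (nE lam y V α A M D (out K (G.erase e)) v + κ)) +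
      q lam y (G.erase e) u K * hh α A M D (G.erase e) K +
      ((q lam y (G.erase e) u K * thK y v K (G.erase e)) * (2 * (A + M) - M * D - α - κ) +
        (A + M) * (q lam y (G.erase e) u K * (thK y v K (G.erase e) *
          ∑ S ∈ V.powerset, q lam y (out K (G.erase e)) v S *
            (if (crs K S (G.erase e)).card = 0 then 0 else 1))) -
        (q lam y (G.erase e) u K - q lam y (G.erase e) u K * thK y v K (G.erase e)) *
          (α + 2 * m * A + M * (D - 1)) +
        M * (q lam y (G.erase e) u K * (if v ∈ K then 1 else 0))) ≤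
      q lam y (G.erase e) u K * (thK y v K (G.erase e) *
        ∑ S ∈ V.powerset, q lam y (out K (G.erase e)) v S * hh α A M D G (K ∪ S)) := by
    intro K _
    have hq := q_nonneg hl hy0 hy1 hG'.1 u K
    by_cases huK : u ∈ K
    · have h3 := vol_le hG.2.2 he hvu hJ huK
      have h4 := vol_card (G := G.erase e) K
      have h5 : ((G.erase e).card : ℚ) ≤ m := by
        have : (G.erase e).card ≤ G.card := card_le_card (erase_subset e G)
        have h6 : ((G.erase e).card : ℚ) ≤ G.card := by exact_mod_cast this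
        exact h6.trans hm
      have h6 : hh α A M D (G.erase e) K ≤
          α + 2 * m * A + M * (D - 1) - M * (if v ∈ K then 1 else 0) := by
        unfold hh
        have h7 : A * vol (G.erase e) K ≤ A * (2 * m) :=
          mul_le_mul_of_nonneg_left (by linarith) hA
        have h8 : M * (vol (G.erase e) K - D * (K.card - 1)) ≤
            M * (D - 1 - (if v ∈ K then 1 else 0)) :=
          mul_le_mul_of_nonneg_left (by linarith) hM
        linarith
      by_cases hvK : v ∈ K
      · have h7 : thK y v K (G.erase e) = 0 := by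
          unfold thK
          rw [if_pos hvK]
        rw [h7]
        rw [if_pos hvK] at h6 ⊢
        have h8 := mul_le_mul_of_nonneg_left h6 hq
        linarith
      · have h7 := dc_two hl hy0 hy1 hG he hJ (α := α) hA hM huK hvK
        rw [if_neg hvK] at h6 ⊢
        have ht0 := thK_nonneg hy0 v K (G.erase e)
        have ht1 := thK_le_one hy0 hy1 v K (G.erase e)
        have h8 := mul_le_mul_of_nonneg_left h7 (mul_nonneg hq ht0)
        have h9 := mul_le_mul_of_nonneg_left h6 (mul_nonneg hq (sub_nonneg.2 ht1))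
        linarith
    · have h3 : q lam y (G.erase e) u K = 0 := q_not_mem _ huK
      rw [h3]
      simp
  have h3 := sum_le_sum h2
  rw [sum_add_distrib, sum_add_distrib, sum_add_distrib, sum_sub_distrib, sum_add_distrib,
    ← sum_mul, ← mul_sum, ← sum_mul, sum_sub_distrib, ← mul_sum, hqs] at h3
  have e1 : ∑ K ∈ V.powerset, q lam y (G.erase e) u K * thK y v K (G.erase e) =
    th lam y V (G.erase e) u v := rfl
  have e2 : ∑ K ∈ V.powerset, q lam y (G.erase e) u K * hh α A M D (G.erase e) K =
    nE lam y V α A M D (G.erase e) u := rfl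
  have e3 : ∑ K ∈ V.powerset, q lam y (G.erase e) u K * (thK y v K (G.erase e) *
          ∑ S ∈ V.powerset, q lam y (out K (G.erase e)) v S *
            (if (crs K S (G.erase e)).card = 0 then 0 else 1)) = Ga lam y V (G.erase e) u v := rfl
  have e4 : ∑ K ∈ V.powerset, q lam y (G.erase e) u K * (if v ∈ K then (1 : ℚ) else 0) =
    Pc lam y V (G.erase e) u v := rfl
  rw [e1, e2, e3, e4] at h3
  -- the cost
  have e5 : ∑ S ∈ V.powerset, q lam y G v S * hh α A M D G S = nE lam y V α A M D G v := rfl
  rw [e5, h1] at hkey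
  have e7 : (1 - th lam y V (G.erase e) u v) * nE lam y V α A M D G v =
      ∑ K ∈ V.powerset, q lam y (G.erase e) u K *
        ((1 - thK y v K (G.erase e)) * nE lam y V α A M D G v) := by
    have h4 : 1 - th lam y V (G.erase e) u v =
        ∑ K ∈ V.powerset, (q lam y (G.erase e) u K -
          q lam y (G.erase e) u K * thK y v K (G.erase e)) := by
      rw [sum_sub_distrib, hqs]
      rfl
    rw [h4, sum_mul]
    exact sum_congr rfl fun K _ => by ring
  have e6 : ∑ K ∈ V.powerset, q lam y (G.erase e) u K *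
        (thK y v K (G.erase e) *
            ∑ S ∈ V.powerset, q lam y (out K (G.erase e)) v S * hh α A M D G (K ∪ S) +
          (1 - thK y v K (G.erase e)) * nE lam y V α A M D G v) =
      ∑ K ∈ V.powerset, q lam y (G.erase e) u K * (thK y v K (G.erase e) *
        ∑ S ∈ V.powerset, q lam y (out K (G.erase e)) v S * hh α A M D G (K ∪ S)) +
      (1 - th lam y V (G.erase e) u v) * nE lam y V α A M D G v := by
    rw [e7, ← sum_add_distrib]
    exact sum_congr rfl fun K _ => by ring
  have e8 : ∑ K ∈ V.powerset, q lam y (G.erase e) u K *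
        (thK y v K (G.erase e) * (nE lam y V α A M D (out K (G.erase e)) v + κ) +
          (1 - thK y v K (G.erase e)) * nE lam y V α A M D G v) =
      ∑ K ∈ V.powerset, q lam y (G.erase e) u K * (thK y v K (G.erase e) *
        (nE lam y V α A M D (out K (G.erase e)) v + κ)) +
      (1 - th lam y V (G.erase e) u v) * nE lam y V α A M D G v := by
    rw [e7, ← sum_add_distrib]
    exact sum_congr rfl fun K _ => by ring
  rw [e6] at hkey
  unfold Dcost
  rw [e8]
  rw [hp1] at hkey ⊢
  have hPr : Pr lam y V (G.erase e) u v =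
      lam / (1 + lam) * (1 - th lam y V (G.erase e) u v) := rfl
  rw [hPr]
  revert hkey h3 hPc0 hth0 hth1 hGa0 hp0
  have hp2 : lam / (1 + lam) ≤ 1 := by
    rw [div_le_one (by linarith)]
    linarith
  revert hp2
  generalize (∑ K ∈ V.powerset, q lam y (G.erase e) u K * (thK y v K (G.erase e) *
        ∑ S ∈ V.powerset, q lam y (out K (G.erase e)) v S * hh α A M D G (K ∪ S))) = X
  generalize (∑ K ∈ V.powerset, q lam y (G.erase e) u K * (thK y v K (G.erase e) *
        (nE lam y V α A M D (out K (G.erase e)) v + κ))) = Y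
  generalize nE lam y V α A M D G v = N1
  generalize nE lam y V α A M D (G.erase e) v = N2
  generalize nE lam y V α A M D (G.erase e) u = N3
  generalize th lam y V (G.erase e) u v = θ
  generalize Pc lam y V (G.erase e) u v = c
  generalize Ga lam y V (G.erase e) u v = g
  generalize lam / (1 + lam) = p
  intro hp2 hp0 hPc0 hth0 hth1 hGa0 hkey h3
  have h4 := mul_le_mul_of_nonneg_left h3 hp0
  have h5 : 0 ≤ A * ((1 - p) * c) := mul_nonneg hA (mul_nonneg (by linarith) hPc0)
  have h6 : 0 ≤ A * (p * g) := mul_nonneg hA (mul_nonneg hp0 hGa0)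
  have h7 : 0 ≤ κ * (p * (1 - θ)) := mul_nonneg hκ (mul_nonneg hp0 (by linarith))
  nlinarith [h4, h5, h6, h7, hkey]

end Pool.Agent.TFU
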