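import Pool.Agent.TFP.Defs

set_option autoImplicit false

/-!
# TFU: definitions

PROJECT TFU (MP_e767af_lc, third theorem; replaces the result of project TFP): FPRAS for the Tutte
polynomial `T(G; x, y)`, `x > 1`, `0 ≤ y < 1`, on graphs of maximum degree `≤ x + 1` (for `x = 2`, `y = 0`:
the number of acyclic orientations of graphs of maximum degree `3`). The algorithm (the sampler of clusters) is that of
project TFP (`Pool/Agent/TFP`, finished), new is the bound for its running time: the potential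
`2^b (1 + B deg v)` is replaced by the mean over the cluster `K` of `v` of
`hh = α + A vol K + M (vol K - D (|K| - 1))`, `vol K` = sum of the degrees of the vertices of `K`.
-/

namespace Pool.Agent.TFU

open Finset Pool.Agent.TFP

/-- the volume of `S`: the sum of the degrees -/
def vol (G : Finset Ed) (S : Finset ℕ) : ℚ := ∑ w ∈ S, ((star w G).card : ℚ)

/-- the edges between `K` and `S` -/
def crs (K S : Finset ℕ) (G : Finset Ed) : Finset Ed :=
  G.filter fun e => (e.2.1 ∈ K ∧ e.2.2 ∈ S) ∨ (e.2.2 ∈ K ∧ e.2.1 ∈ S)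

/-- the potential of a cluster -/
def hh (α A M : ℚ) (D : ℕ) (G : Finset Ed) (S : Finset ℕ) : ℚ :=
  α + A * vol G S + M * (vol G S - D * (S.card - 1))

/-- the mean potential of the cluster of `v` -/
noncomputable def nE (lam y : ℚ) (V : Finset ℕ) (α A M : ℚ) (D : ℕ) (G : Finset Ed) (v : ℕ) : ℚ :=
  ∑ S ∈ V.powerset, q lam y G v S * hh α A M D G S

/-- the probability that `u` and `v` are in the same cluster -/
noncomputable def Pc (lam y : ℚ) (V : Finset ℕ) (G : Finset Ed) (u v : ℕ) : ℚ :=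
  ∑ K ∈ V.powerset, q lam y G u K * (if v ∈ K then 1 else 0)

/-- the probability that the cluster of `u` is accepted at `v` and that it is joined to the cluster of
`v` by an edge of `G` -/
noncomputable def Ga (lam y : ℚ) (V : Finset ℕ) (G : Finset Ed) (u v : ℕ) : ℚ :=
  ∑ K ∈ V.powerset, q lam y G u K * (thK y v K G *
    ∑ S ∈ V.powerset, q lam y (out K G) v S * (if (crs K S G).card = 0 then 0 else 1))

/-- the probability of a restart -/
noncomputable def Pr (lam y : ℚ) (V : Finset ℕ) (G : Finset Ed) (u v : ℕ) : ℚ :=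
  lam / (1 + lam) * (1 - th lam y V G u v)

/-- no loops, ends in `V`, degrees at most `D` -/
def Cl (V : Finset ℕ) (D : ℕ) (G : Finset Ed) : Prop :=
  NL G ∧ ends G ⊆ V ∧ ∀ v, (star v G).card ≤ D

/-- there are no two edges joining the same vertices -/
def Sim (G : Finset Ed) : Prop := ∀ e ∈ G, ∀ f ∈ G, ∀ v u, Jn e v u → Jn f v u → e = f

/-- the edge sets for which the running time of the sampler is controlled with the constant `τ` -/
def Good (V : Finset ℕ) (D : ℕ) (lam y τ : ℚ) (E : Finset Ed) : Prop :=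
  Cl V D E ∧ ∀ G ⊆ E, ∀ e ∈ G, ∀ v u, Jn e v u →
    τ * Pr lam y V (G.erase e) u v ≤ 1 - lam / (1 + lam) * (D - 1) +
      (Pc lam y V (G.erase e) u v - Pr lam y V (G.erase e) u v) +
      lam / (1 + lam) * Ga lam y V (G.erase e) u v

/-! ## The analysis of the machine with an arbitrary potential -/

/-- `n` is a potential for the machine on subgraphs of `E`, bounded by `B` -/
structure Sup (P : Par) (V : Finset ℕ) (E : Finset Ed) (n : Finset Ed → ℕ → ℚ) (B : ℚ) : Prop where
  nl : NL E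
  en : ends E ⊆ V
  dg : ∀ v, (star v E).card ≤ P.D
  nn : ∀ G ⊆ E, ∀ v ∈ V, 0 ≤ n G v
  on : ∀ G ⊆ E, ∀ v ∈ V, star v G = ∅ → 1 ≤ n G v
  dc : ∀ G ⊆ E, ∀ e ∈ G, ∀ v u, Jn e v u → 2 ^ P.b ≤ Dcost P.lam P.y V n (2 ^ P.b) G v u e
  bd : ∀ G ⊆ E, ∀ v ∈ V, n G v ≤ B

/-- the invariant of the states -/
def Inv (V : Finset ℕ) (E : Finset Ed) (s : St) : Prop :=
  (s.1 = true → s.2.1.2.1.Nodup ∧ s.2.1.2.1.toFinset ⊆ E ∧ s.2.1.1 ∈ V) ∧
    ∀ f ∈ s.2.2, f.1 = true → (f.2.1.2 :: f.2.2.1).Nodup ∧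
      (f.2.1.2 :: f.2.2.1).toFinset ⊆ E ∧ f.2.1.1 ∈ V ∧
      (f.2.1.2.2.1 = f.2.1.1 ∨ f.2.1.2.2.2 = f.2.1.1)

/-- the potential: expected number of steps, at most -/
noncomputable def Pot (P : Par) (V : Finset ℕ) (n : Finset Ed → ℕ → ℚ) (s : St) : ℚ :=
  Val P.lam P.y V n (2 ^ P.b) (fun _ => 0) s

end Pool.Agent.TFU
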