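import Pool.Agent.TFU.Defs
import Pool.Agent.TFP.Comp

set_option autoImplicit false

/-!
# TFU-InvS: the invariant of the machine
-/

namespace Pool.Agent.TFU

open Finset Pool.Agent.TFP

private theorem head_mem {l : List Ed} (h : ¬ l.isEmpty = true) (d : Ed) : l.headD d ∈ l := by
  cases l with
  | nil => simp at h
  | cons a l => simp

private theorem head_memF {l : List Frame} (h : ¬ l.isEmpty = true) (d : Frame) :
    l.headD d ∈ l := by
  cases l with
  | nil => simp at h
  | cons a l => simp

private theorem mem_atL {v : ℕ} {G : List Ed} {e : Ed} (h : e ∈ atL v G) :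
    e ∈ G ∧ (e.2.1 = v ∨ e.2.2 = v) := by
  unfold atL at h
  rw [List.mem_filter] at h
  refine ⟨h.1, ?_⟩
  simpa using h.2

private theorem mem_delL {e f : Ed} {G : List Ed} : f ∈ delL e G ↔ f ∈ G ∧ f ≠ e := by
  unfold delL
  rw [List.mem_filter]
  simp

private theorem delL_nodup {e : Ed} {G : List Ed} (h : G.Nodup) : (e :: delL e G).Nodup := by
  rw [List.nodup_cons]
  refine ⟨fun hc => (mem_delL.1 hc).2 rfl, ?_⟩
  unfold delL
  exact h.filter _

private theorem delL_toFinset {e : Ed} {G : List Ed} (h : e ∈ G) :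
    (e :: delL e G).toFinset = G.toFinset := by
  ext f
  rw [List.mem_toFinset, List.mem_toFinset, List.mem_cons, mem_delL]
  constructor
  · rintro (rfl | h')
    · exact h
    · exact h'.1
  · intro hf
    by_cases hfe : f = e
    · exact Or.inl hfe
    · exact Or.inr ⟨hf, hfe⟩

private theorem delL_sub {e : Ed} {G : List Ed} : (delL e G).toFinset ⊆ G.toFinset := by
  intro f hf
  rw [List.mem_toFinset] at hf ⊢
  exact (mem_delL.1 hf).1

private theorem outL_sub {K : List ℕ} {G : List Ed} : (outL K G).toFinset ⊆ G.toFinset := by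
  intro f hf
  rw [List.mem_toFinset] at hf ⊢
  unfold outL at hf
  exact (List.mem_filter.1 hf).1

private theorem oth_mem {V : Finset ℕ} {G : List Ed} {e : Ed} (he : e ∈ G)
    (hV : ends G.toFinset ⊆ V) (v : ℕ) : oth v e ∈ V := by
  have h1 : e ∈ G.toFinset := List.mem_toFinset.2 he
  unfold oth
  split_ifs
  · exact hV (mem_ends_right h1)
  · exact hV (mem_ends_left h1)

theorem inv_step (P : Par) {V : Finset ℕ} {E : Finset Ed} (hV : ends E ⊆ V) {s : St}
    (hs : Inv V E s) (U : ℕ) : Inv V E (stepM P U s) := by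
  have hs' := hs
  obtain ⟨h1, h2⟩ := hs'
  unfold stepM
  by_cases hb : s.1 = true
  · obtain ⟨hnd, hcl, hv⟩ := h1 hb
    rw [if_pos hb]
    by_cases he : (atL s.2.1.1 s.2.1.2.1).isEmpty = true
    · rw [if_pos he]
      exact ⟨fun hc => absurd hc (by simp), h2⟩
    · rw [if_neg he]
      have hm := mem_atL (head_mem he (0, (0, 0)))
      generalize (atL s.2.1.1 s.2.1.2.1).headD (0, (0, 0)) = e at hm
      have hnd' := delL_nodup (e := e) hnd
      by_cases hU : U < P.c
      · rw [if_pos hU]
        refine ⟨fun _ => ⟨(List.nodup_cons.1 hnd').2, delL_sub.trans hcl,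
          oth_mem hm.1 ((ends_mono hcl).trans hV) _⟩, ?_⟩
        intro f hf hf1
        rcases List.mem_cons.1 hf with rfl | hf'
        · exact ⟨hnd', by rw [delL_toFinset hm.1]; exact hcl, hv, hm.2⟩
        · exact h2 f hf' hf1
      · rw [if_neg hU]
        by_cases hU' : U < P.a
        · rw [if_pos hU']
          exact ⟨fun _ => ⟨(List.nodup_cons.1 hnd').2, delL_sub.trans hcl, hv⟩, h2⟩
        · rw [if_neg hU']
          exact hs
  · rw [if_neg hb]
    by_cases he : s.2.2.isEmpty = true
    · rw [if_pos he]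
      exact hs
    · rw [if_neg he]
      have hm := head_memF he (frB [])
      have htail : ∀ f ∈ s.2.2.tail, f.1 = true → (f.2.1.2 :: f.2.2.1).Nodup ∧
          (f.2.1.2 :: f.2.2.1).toFinset ⊆ E ∧ f.2.1.1 ∈ V ∧
          (f.2.1.2.2.1 = f.2.1.1 ∨ f.2.1.2.2.2 = f.2.1.1) :=
        fun f hf => h2 f (List.mem_of_mem_tail hf)
      have hf0 := h2 _ hm
      generalize s.2.2.headD (frB []) = f0 at hf0
      by_cases hf1 : f0.1 = true
      · rw [if_pos hf1]
        obtain ⟨hnd, hcl, hv, _⟩ := hf0 hf1
        by_cases hK : s.2.1.2.2.contains f0.2.1.1 = true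
        · rw [if_pos hK]
          exact ⟨fun _ => ⟨hnd, hcl, hv⟩, htail⟩
        · rw [if_neg hK]
          by_cases hU : U < P.y1 ^ jj P f0.2.1.1 s.2.1.2.2 f0.2.2.1
          · rw [if_pos hU]
            refine ⟨fun _ => ⟨?_, ?_, hv⟩, ?_⟩
            · show (outL s.2.1.2.2 f0.2.2.1).Nodup
              unfold outL
              exact ((List.nodup_cons.1 hnd).2).filter _
            · refine (outL_sub).trans (Subset.trans ?_ hcl)
              rw [List.toFinset_cons]
              exact subset_insert _ _
            · intro f hf hf1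
              rcases List.mem_cons.1 hf with rfl | hf'
              · exact absurd hf1 (by simp)
              · exact htail f hf' hf1
          · rw [if_neg hU]
            by_cases hU' : U < P.y2 ^ jj P f0.2.1.1 s.2.1.2.2 f0.2.2.1
            · rw [if_pos hU']
              exact ⟨fun _ => ⟨hnd, hcl, hv⟩, htail⟩
            · rw [if_neg hU']
              exact hs
      · rw [if_neg hf1]
        exact ⟨fun hc => absurd hc (by simp), htail⟩

end Pool.Agent.TFU
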