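import Pool.Agent.TFP.MeanE
import Pool.Agent.TFP.MeanR
import Pool.Agent.TFU.InvS

set_option autoImplicit false

/-!
# TFU-Drift: the value function is harmonic, the potential decreases by at least 1
-/

namespace Pool.Agent.TFU

open Finset Pool.Agent.TFP

private lemma mem_at {v : ℕ} {G : List Ed} {e : Ed} {l : List Ed} (he : atL v G = e :: l) :
    e ∈ G ∧ Jn e v (oth v e) := by
  have h : e ∈ atL v G := by rw [he]; exact List.mem_cons_self
  unfold atL at h
  rw [List.mem_filter] at h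
  obtain ⟨h1, h2⟩ := h
  refine ⟨h1, ?_⟩
  have h3 : e.2.1 = v ∨ e.2.2 = v := by simpa using h2
  unfold Jn oth
  by_cases h4 : e.2.1 = v
  · left; simp [h4]
  · right
    rcases h3 with h3 | h3
    · exact absurd h3 h4
    · simp [h4, h3]

private lemma sum_const_div (b : ℕ) (g : ℕ → ℚ) (c : ℚ) (h : ∀ U, g U = c) :
    (∑ U ∈ range (2 ^ b), g U) / 2 ^ b = c := by
  rw [Finset.sum_congr rfl (fun U _ => h U), Finset.sum_const, card_range, nsmul_eq_mul]
  have h2 : (2 : ℚ) ^ b ≠ 0 := by positivity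
  push_cast
  field_simp

private lemma frame_ok {D : ℕ} {V : Finset ℕ} {E : Finset Ed}
    (hd : ∀ v, (TFP.star v E).card ≤ D) {f : Frame} {st : List Frame} {b : Bool}
    {w : ℕ × (List Ed × List ℕ)} (hs : Inv V E (b, (w, f :: st))) :
    f.1 = true → f.2.2.1.Nodup ∧ (TFP.star f.2.1.1 f.2.2.1.toFinset).card ≤ D := by
  intro hf
  obtain ⟨h1, h2, -, -⟩ := hs.2 f List.mem_cons_self hf
  refine ⟨(List.nodup_cons.1 h1).2, le_trans (card_le_card ?_) (hd f.2.1.1)⟩
  unfold TFP.star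
  refine filter_subset_filter _ (Subset.trans ?_ h2)
  rw [List.toFinset_cons]
  exact subset_insert _ _

private lemma star_nil {v : ℕ} {G : List Ed} (h0 : atL v G = []) : TFP.star v G.toFinset = ∅ := by
  rw [Finset.eq_empty_iff_forall_notMem]
  intro e he
  unfold TFP.star at he
  rw [mem_filter, List.mem_toFinset] at he
  have h1 : e ∈ atL v G := by
    unfold atL
    rw [List.mem_filter]
    refine ⟨he.1, ?_⟩
    simpa using he.2
  rw [h0] at h1
  exact absurd h1 List.not_mem_nil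

theorem harm {P : Par} (hP : P.Ok) {V : Finset ℕ} {E : Finset Ed} (hE : NL E)
    (hV : ends E ⊆ V) (hd : ∀ v, (TFP.star v E).card ≤ P.D) (F : Finset ℕ → ℚ) {s : St}
    (hs : Inv V E s) :
    (∑ U ∈ range (2 ^ P.b), Val P.lam P.y V (fun _ _ => 0) 0 F (stepM P U s)) / 2 ^ P.b =
      Val P.lam P.y V (fun _ _ => 0) 0 F s := by
  obtain ⟨b, ⟨v, G, K0⟩, st⟩ := s
  cases b with
  | true =>
    obtain ⟨hn, hC, hv⟩ := hs.1 rfl
    rcases hat : atL v G with _ | ⟨e, l⟩
    · refine sum_const_div _ _ _ fun U => ?_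
      rw [mean_E0 hP (hE.mono hC) hv (fun _ _ => 0) 0 F K0 st hat U, sub_zero]
    · rw [mean_E hP hn (hE.mono hC) ((ends_mono hC).trans hV) (fun _ _ => 0) 0 F K0 st hat]
      simp [Dcost]
  | false =>
    rcases st with _ | ⟨f, st⟩
    · refine sum_const_div _ _ _ fun U => ?_
      simp [stepM]
    · obtain ⟨t, -, ht⟩ := mean_R hP V (fun _ _ => 0) 0 F v G K0 f st (frame_ok hd hs)
      rw [ht, mul_zero, sub_zero]

theorem drift {P : Par} (hP : P.Ok) {V : Finset ℕ} {E : Finset Ed} {n : Finset Ed → ℕ → ℚ}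
    {B : ℚ} (hS : Sup P V E n B) {s : St}
    (hs : Inv V E s) (hT : isT s = false) :
    (∑ U ∈ range (2 ^ P.b), Pot P V n (stepM P U s)) / 2 ^ P.b ≤ Pot P V n s - 1 := by
  obtain ⟨b, ⟨v, G, K0⟩, st⟩ := s
  unfold Pot
  cases b with
  | true =>
    obtain ⟨hn, hC, hv⟩ := hs.1 rfl
    rcases hat : atL v G with _ | ⟨e, l⟩
    · rw [sum_const_div _ _ _ fun U => mean_E0 hP (hS.nl.mono hC) hv
        n (2 ^ P.b) (fun _ => 0) K0 st hat U]
      have h4 := hS.on _ hC v hv (star_nil hat)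
      linarith
    · rw [mean_E hP hn (hS.nl.mono hC) ((ends_mono hC).trans hS.en) n (2 ^ P.b)
        (fun _ => 0) K0 st hat]
      obtain ⟨he, hJ⟩ := mem_at hat
      have h3 := hS.dc _ hC e (List.mem_toFinset.2 he) v (oth v e) hJ
      have ha : (1 : ℚ) ≤ P.a := by
        have : 1 ≤ P.a := lt_of_le_of_lt (Nat.zero_le _) hP.2.1
        exact_mod_cast this
      have h4 : (1 : ℚ) ≤ P.a / 2 ^ P.b * Dcost P.lam P.y V
          n (2 ^ P.b) G.toFinset v (oth v e) e := by
        calc (1 : ℚ) ≤ P.a := ha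
          _ = P.a / 2 ^ P.b * 2 ^ P.b := by field_simp
          _ ≤ _ := mul_le_mul_of_nonneg_left h3 (by positivity)
      linarith
  | false =>
    rcases st with _ | ⟨f, st⟩
    · simp [isT] at hT
    · obtain ⟨t, ht1, ht⟩ := mean_R hP V n (2 ^ P.b)
        (fun _ => 0) v G K0 f st (frame_ok hS.dg hs)
      rw [ht]
      linarith

end Pool.Agent.TFU
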