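import Pool.Agent.TFU.FacA
import Pool.Agent.TFP.ProdE
import Pool.Agent.TFP.NumR

set_option autoImplicit false

/-!
# TFU-EstG: the estimator of `Z` is good with probability at least 3/4

Plan. `prod_good` with `fs = facs P k L E`, `zz = zs .. E` (`facs_good`), `n = k * (L * b)`, `δ = lam * (2^b (1 + B D) / L)`,
`ε = lam² / k`; `(facs P k L E).length = E.length` (induction); `numer_eq`, `zs_prod` (`Cl` gives `NL`, `ends ⊆ V`).
-/

namespace Pool.Agent.TFU

open Finset Pool.Agent.TFP

private theorem length_facs (P : Par) (k L : ℕ) (E : List Ed) :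
    (facs P k L E).length = E.length := by
  induction E with
  | nil => rfl
  | cons e E ih => rw [facs, List.length_cons, ih, List.length_cons]

theorem est_good {P : Par} (hP : P.Ok) {V : Finset ℕ} {E : List Ed}
    {n : Finset Ed → ℕ → ℚ} {B : ℚ} (hB : 0 ≤ B) (hS : Sup P V E.toFinset n B) {k L : ℕ}
    (hk : 0 < k) (hL : 0 < L) (hn : E.Nodup) {η : ℚ} (hη : 0 < η) (hη1 : η ≤ 1)
    (h0 : P.lam * (B / L) < 1)
    (h1 : E.length * (P.lam * (B / L)) ≤ η)
    (h2 : 8 * E.length * (P.lam ^ 2 / k) ≤ η ^ 2) :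
    3 / 4 ≤ avg (E.length * (k * (L * P.b)))
      (fun l => if |(numer P k L E l : ℚ) / denom P k E - Z P.lam P.y E.toFinset| ≤
        2 * η * Z P.lam P.y E.toFinset then 1 else 0) := by
  obtain ⟨hl, hy0, hy1, -, -⟩ := Par.facts hP
  have hf := facs_good hP hB hS hk hL hn Subset.rfl
  have hlen := length_facs P k L E
  have key := prod_good (k * (L * P.b)) (facs P k L E) (zs P.lam P.y V E)
    (P.lam * (B / L)) (P.lam ^ 2 / k) η hf (by positivity) h0
    (by positivity) hη hη1 (by rw [hlen]; exact h1) (by rw [hlen]; exact h2)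
  rw [hlen, zs_prod hl hy0 hy1 hn hS.nl hS.en] at key
  simp only [numer_eq hP hk]
  exact key

end Pool.Agent.TFU
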