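import Pool.Agent.TFU.Tau
import Pool.Agent.TFP.MeanE

set_option autoImplicit false

/-!
# TFU-Pos: bounds of the potential, and its decrease
-/

namespace Pool.Agent.TFU

open Finset Pool.Agent.TFP

variable {lam y : ℚ}

theorem nE_iso (hl : 0 < lam) (hy0 : 0 ≤ y) (hy1 : y < 1) {V : Finset ℕ} {D : ℕ}
    {G : Finset Ed} (hG : NL G) {v : ℕ} (hv : v ∈ V) (hs : TFP.star v G = ∅) (α A M : ℚ) :
    nE lam y V α A M D G v = α := by
  have h1 : hh α A M D G {v} = α := by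
    unfold hh vol
    rw [sum_singleton, hs, card_empty, card_singleton]
    push_cast
    ring
  unfold nE
  rw [sum_eq_single {v}]
  · rw [q_iso hl hy0 hy1 hG hs, if_pos rfl, one_mul, h1]
  · intro S _ hS
    rw [q_iso hl hy0 hy1 hG hs, if_neg hS, zero_mul]
  · intro h2
    rw [mem_powerset, singleton_subset_iff] at h2
    exact absurd hv h2

theorem nE_split (hl : 0 < lam) (hy0 : 0 ≤ y) (hy1 : y < 1) {V : Finset ℕ} {D : ℕ}
    {G : Finset Ed} (hG : Cl V D G) {v : ℕ} (hv : v ∈ V) (α A M : ℚ) :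
    nE lam y V α A M D G v = α + A * ∑ S ∈ V.powerset, q lam y G v S * vol G S +
      M * nE lam y V 0 0 1 D G v := by
  have h1 : α = α * ∑ S ∈ V.powerset, q lam y G v S := by
    rw [q_sum hl hy0 hy1 hG.1 hG.2.1 hv, mul_one]
  conv_rhs => rw [h1]
  unfold nE
  rw [mul_sum, mul_sum, mul_sum, ← sum_add_distrib, ← sum_add_distrib]
  refine sum_congr rfl fun S _ => ?_
  unfold hh
  ring

private theorem exists_edge {G : Finset Ed} {v : ℕ} (hs : TFP.star v G ≠ ∅) :
    ∃ e ∈ G, ∃ u, Jn e v u := by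
  obtain ⟨e, he⟩ := nonempty_iff_ne_empty.mpr hs
  unfold TFP.star at he
  rw [mem_filter] at he
  obtain ⟨heG, hev⟩ := he
  refine ⟨e, heG, ?_⟩
  rcases hev with h1 | h1
  · exact ⟨e.2.2, Or.inl ⟨h1, rfl⟩⟩
  · exact ⟨e.2.1, Or.inr ⟨rfl, h1⟩⟩

/-- the mean of `vol K - D (|K| - 1)` is not negative -/
theorem H_nonneg (hl : 0 < lam) (hy0 : 0 ≤ y) (hy1 : y < 1) {V : Finset ℕ} {D : ℕ} {τ : ℚ}
    {E : Finset Ed} (hτ : 0 ≤ τ) (hg : Good V D lam y τ E) (n : ℕ) :
    ∀ G ⊆ E, G.card = n → ∀ v ∈ V, 0 ≤ nE lam y V 0 0 1 D G v := by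
  induction n using Nat.strong_induction_on with
  | _ n ih =>
  intro G hGE hn v hv
  have hG := hg.1.mono hGE
  by_cases hs : TFP.star v G = ∅
  · rw [nE_iso hl hy0 hy1 hG.1 hv hs]
  · obtain ⟨e, he, u, hJ⟩ := exists_edge hs
    obtain ⟨-, hu⟩ := mem_V hG.2.1 he hJ
    have hG' := hG.mono (erase_subset e G)
    have hE' : G.erase e ⊆ E := (erase_subset e G).trans hGE
    have hc : (G.erase e).card < n := by
      rw [← hn]
      exact card_erase_lt_of_mem he
    have h1 := Dc_main hl hy0 hy1 hG he hJ (α := 0) (A := 0) (M := 1) (κ := 0)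
      (m := (G.card : ℚ)) le_rfl zero_le_one le_rfl le_rfl
    have h2 := hg.2 G hGE e he v u hJ
    have h3 := Pr_nonneg hl hy0 hy1 hG'.1 hG'.2.1 hu v
    have h4 : 0 ≤ Dcost lam y V (nE lam y V 0 0 1 D) 0 G v u e := by
      have h5 := mul_nonneg hτ h3
      linarith
    have hth0 := th_nonneg hl hy0 hy1 hG'.1 V u v
    have hqs := q_sum hl hy0 hy1 hG'.1 hG'.2.1 hu
    have h5 : (1 - th lam y V (G.erase e) u v) * nE lam y V 0 0 1 D G v ≤
        ∑ K ∈ V.powerset, q lam y (G.erase e) u K *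
          (thK y v K (G.erase e) * (nE lam y V 0 0 1 D (out K (G.erase e)) v + 0) +
            (1 - thK y v K (G.erase e)) * nE lam y V 0 0 1 D G v) := by
      have h6 : 1 - th lam y V (G.erase e) u v =
          ∑ K ∈ V.powerset, (q lam y (G.erase e) u K -
            q lam y (G.erase e) u K * thK y v K (G.erase e)) := by
        rw [sum_sub_distrib, hqs]
        rfl
      rw [h6, sum_mul]
      refine sum_le_sum fun K _ => ?_
      have h7 : out K (G.erase e) ⊆ G.erase e := filter_subset _ _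
      have h8 : (out K (G.erase e)).card < n := lt_of_le_of_lt (card_le_card h7) hc
      have h9 := ih _ h8 _ (h7.trans hE') rfl v hv
      have h10 := mul_nonneg (mul_nonneg (q_nonneg hl hy0 hy1 hG'.1 u K)
        (thK_nonneg hy0 v K (G.erase e))) h9
      linarith
    have h6 := ih _ hc _ hE' rfl v hv
    have h7 := ih _ hc _ hE' rfl u hu
    unfold Dcost at h4
    have hp0 : 0 < 1 / (1 + lam) := by positivity
    have hp1 : 0 ≤ lam / (1 + lam) := by positivity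
    have hp2 : 1 / (1 + lam) = 1 - lam / (1 + lam) := by
      have : (1 + lam) ≠ 0 := by positivity
      field_simp
      ring
    have h8 := mul_le_mul_of_nonneg_left h5 hp1
    have h9 := mul_nonneg hp0.le h6
    have h10 := mul_nonneg hp1 h7
    have h11 : 0 ≤ nE lam y V 0 0 1 D G v *
        (1 - lam / (1 + lam) * (1 - th lam y V (G.erase e) u v)) := by
      linarith
    have h12 : 0 < 1 - lam / (1 + lam) * (1 - th lam y V (G.erase e) u v) := by
      have := mul_nonneg hp1 hth0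
      linarith
    exact nonneg_of_mul_nonneg_left h11 h12

theorem nE_low (hl : 0 < lam) (hy0 : 0 ≤ y) (hy1 : y < 1) {V : Finset ℕ} {D : ℕ} {τ : ℚ}
    {E : Finset Ed} (hτ : 0 ≤ τ) (hg : Good V D lam y τ E) {α A M : ℚ} (hA : 0 ≤ A) (hM : 0 ≤ M)
    {G : Finset Ed} (hG : G ⊆ E) {v : ℕ} (hv : v ∈ V) : α ≤ nE lam y V α A M D G v := by
  rw [nE_split hl hy0 hy1 (hg.1.mono hG) hv]
  have h1 := mul_nonneg hM (H_nonneg hl hy0 hy1 hτ hg _ G hG rfl v hv)
  have h2 : 0 ≤ ∑ S ∈ V.powerset, q lam y G v S * vol G S :=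
    sum_nonneg fun S _ => mul_nonneg (q_nonneg hl hy0 hy1 (hg.1.mono hG).1 v S) (vol_nonneg G S)
  have h3 := mul_nonneg hA h2
  linarith

theorem nE_up (hl : 0 < lam) (hy0 : 0 ≤ y) (hy1 : y < 1) {V : Finset ℕ} {D : ℕ}
    {G : Finset Ed} (hG : Cl V D G) {α A M m : ℚ} (hA : 0 ≤ A) (hM : 0 ≤ M)
    (hm : (G.card : ℚ) ≤ m) {v : ℕ} (hv : v ∈ V) :
    nE lam y V α A M D G v ≤ α + 2 * m * A + M * D := by
  have h1 : nE lam y V α A M D G v ≤
      ∑ S ∈ V.powerset, q lam y G v S * (α + 2 * m * A + M * D) := by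
    unfold nE
    refine sum_le_sum fun S _ => mul_le_mul_of_nonneg_left ?_ (q_nonneg hl hy0 hy1 hG.1 v S)
    unfold hh
    have h2 := vol_card (G := G) S
    have h3 := vol_deg hG.2.2 S
    have h4 : A * vol G S ≤ A * (2 * m) := mul_le_mul_of_nonneg_left (by linarith) hA
    have h5 : M * (vol G S - D * (S.card - 1)) ≤ M * D :=
      mul_le_mul_of_nonneg_left (by linarith) hM
    linarith
  rw [← sum_mul, q_sum hl hy0 hy1 hG.1 hG.2.1 hv, one_mul] at h1
  exact h1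

/-- the potential of the machine -/
theorem sup_of_good {P : Par} (hP : P.Ok) {V : Finset ℕ} {E : Finset Ed} {τ : ℚ} (hτ : 0 < τ)
    (hg : Good V P.D P.lam P.y τ E) :
    ∃ n, Sup P V E n (2 ^ P.b * ((4 + 4 * P.D / τ) * (E.card + 1))) := by
  obtain ⟨hl, hy0, hy1, -, -⟩ := Par.facts hP
  obtain ⟨κ, hκ⟩ : ∃ κ : ℚ, κ = 2 ^ P.b := ⟨_, rfl⟩
  have hκ1 : 1 ≤ κ := by
    rw [hκ]
    exact one_le_pow₀ (by norm_num)
  have hκ0 : 0 ≤ κ := by linarith
  obtain ⟨m, hm⟩ : ∃ m : ℚ, m = E.card := ⟨_, rfl⟩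
  have hm0 : 0 ≤ m := by
    rw [hm]
    exact Nat.cast_nonneg _
  obtain ⟨M, hM⟩ : ∃ M : ℚ, M = 2 * (2 * m + 2) * κ / τ := ⟨_, rfl⟩
  have hM0 : 0 ≤ M := by
    rw [hM]
    positivity
  have hMτ : M * τ = 2 * (2 * m + 2) * κ := by
    rw [hM]
    field_simp
  have hcm : ∀ G ⊆ E, (G.card : ℚ) ≤ m := by
    intro G hG
    rw [hm]
    exact_mod_cast card_le_card hG
  have hlow : ∀ G ⊆ E, ∀ v ∈ V, κ ≤ nE P.lam P.y V κ (2 * κ) M P.D G v := fun G hG v hv =>
    nE_low hl hy0 hy1 hτ.le hg (by linarith) hM0 hG hv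
  refine ⟨nE P.lam P.y V κ (2 * κ) M P.D, ?_⟩
  constructor
  · exact hg.1.1
  · exact hg.1.2.1
  · exact hg.1.2.2
  · intro G hG v hv
    exact hκ0.trans (hlow G hG v hv)
  · intro G hG v hv _
    exact hκ1.trans (hlow G hG v hv)
  · intro G hG e he v u hJ
    have hG' := (hg.1.mono hG).mono (erase_subset e G)
    obtain ⟨-, hu⟩ := mem_V (hg.1.mono hG).2.1 he hJ
    have h1 := Dc_main hl hy0 hy1 (hg.1.mono hG) he hJ (α := κ) (A := 2 * κ) (M := M) (κ := κ)
      (m := m) (by linarith) hM0 hκ0 (hcm G hG)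
    have h2 := mul_le_mul_of_nonneg_left (hg.2 G hG e he v u hJ) hM0
    have h3 : M * (τ * Pr P.lam P.y V (G.erase e) u v) =
        2 * (2 * m + 2) * κ * Pr P.lam P.y V (G.erase e) u v := by
      rw [← mul_assoc, hMτ]
    rw [h3] at h2
    have hp : P.lam / (1 + P.lam) ≤ 1 := by
      rw [div_le_one (by linarith)]
      linarith
    have h4 := mul_le_mul_of_nonneg_left hp hκ0
    rw [← hκ]
    linarith
  · intro G hG v hv
    have h1 := nE_up hl hy0 hy1 (hg.1.mono hG) (α := κ) (A := 2 * κ) (M := M) (m := m)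
      (by linarith) hM0 (hcm G hG) hv
    refine h1.trans ?_
    rw [← hκ, ← hm]
    have h2 : M * P.D = κ * (4 * P.D / τ * (m + 1)) := by
      rw [hM]
      field_simp
      ring
    rw [h2]
    have h3 : κ * ((4 + 4 * P.D / τ) * (m + 1)) = 4 * κ * (m + 1) + κ * (4 * P.D / τ * (m + 1)) := by
      ring
    rw [h3]
    linarith

end Pool.Agent.TFU
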