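import Pool.Agent.TFU.EstG
import Pool.Agent.TFU.Pos
import Pool.Agent.TFU.FpA
import Pool.Agent.TFP.TutR
import Pool.Agent.TFP.Num

set_option autoImplicit false

/-!
# TFU-Gen: the general theorem
-/

namespace Pool.Agent.TFU

open Finset Pool.Agent.Helper47.TR Pool.Agent.TFP

private theorem numer_take (P : Par) (k L : ℕ) (E : List Ed) (l : List Bool) :
    numer P k L E (l.take (E.length * (k * (L * P.b)))) = numer P k L E l := by
  induction E generalizing l with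
  | nil => rfl
  | cons e E ih =>
    have h1 : k * (L * P.b) ≤ (e :: E).length * (k * (L * P.b)) := by
      rw [List.length_cons]
      nlinarith [Nat.zero_le (E.length * (k * (L * P.b)))]
    have h2 : (e :: E).length * (k * (L * P.b)) - k * (L * P.b) = E.length * (k * (L * P.b)) := by
      rw [List.length_cons, Nat.succ_mul, Nat.add_sub_cancel]
    rw [numer, numer, List.take_take, min_eq_left h1, List.drop_take, h2, ih]

private theorem gen_val {P : Par} (hP : P.Ok) {x y : ℚ} (hx : x = P.a / P.c) (hy : P.y = y)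
    (M Lp nu de : ℕ) :
    ((((P.a - P.c) ^ M * P.y1 ^ Lp * nu : ℕ) : ℤ) : ℚ) / ((P.c ^ M * P.y2 ^ Lp * de : ℕ) : ℚ) =
      (x - 1) ^ M * y ^ Lp * ((nu : ℚ) / de) := by
  obtain ⟨h1, h2, h3, h4, h5⟩ := hP
  have hc : ((P.a - P.c : ℕ) : ℚ) = (P.a : ℚ) - P.c := by
    rw [Nat.cast_sub h2.le]
  have hc0 : (P.c : ℚ) ≠ 0 := by
    have : (0 : ℚ) < P.c := by exact_mod_cast h1
    exact this.ne'
  have hx1 : x - 1 = ((P.a : ℚ) - P.c) / P.c := by
    rw [hx, sub_div, div_self hc0]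
  rw [hx1, ← hy, Par.y, div_pow, div_pow, Int.cast_natCast]
  push_cast [hc]
  rw [mul_div_mul_comm, mul_div_mul_comm]

private theorem gen_le {P : Par} {W B : ℚ} (hW0 : 0 ≤ W) (hl : 0 < P.lam)
    {C1 C2 : ℕ} (h1 : 128 * P.lam ^ 2 + 1 ≤ C1) (h2 : 4 * (P.lam * W) + 1 ≤ C2)
    {m t n : ℕ} (hB : B ≤ W * (m + 1)) (hm : m + 1 ≤ t) (hn : n + 1 ≤ t) :
    P.lam * (B / ((C2 * t ^ 3 : ℕ) : ℚ)) < 1 ∧
    (m : ℚ) * (P.lam * (B / ((C2 * t ^ 3 : ℕ) : ℚ))) ≤ 1 / (4 * (n + 1)) ∧
    8 * (m : ℚ) * (P.lam ^ 2 / ((C1 * t ^ 3 : ℕ) : ℚ)) ≤ (1 / (4 * ((n : ℚ) + 1))) ^ 2 := by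
  have ht : (1 : ℚ) ≤ t := by
    have : 1 ≤ t := by omega
    exact_mod_cast this
  have hmt1 : (m : ℚ) + 1 ≤ t := by exact_mod_cast hm
  have hmt : (m : ℚ) ≤ t := by linarith
  have hnt : (n : ℚ) + 1 ≤ t := by exact_mod_cast hn
  have hn0 : (0 : ℚ) < (n : ℚ) + 1 := by positivity
  have hlW : 0 ≤ P.lam * W := by positivity
  have hC2 : (0 : ℚ) < C2 := by linarith
  have hl2 : 0 < P.lam ^ 2 := by positivity
  have hC1 : (0 : ℚ) < C1 := by linarith
  have hm0 : (0 : ℚ) ≤ m := by positivity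
  have e1 : P.lam * (B / ((C2 * t ^ 3 : ℕ) : ℚ)) = P.lam * B / (C2 * t ^ 3) := by
    push_cast
    rw [← mul_div_assoc]
  have e2 : P.lam ^ 2 / ((C1 * t ^ 3 : ℕ) : ℚ) = P.lam ^ 2 / (C1 * t ^ 3) := by push_cast; rfl
  rw [e1, e2]
  have hBt : P.lam * B ≤ C2 / 4 * t := by
    have h3 : B ≤ W * t := hB.trans (mul_le_mul_of_nonneg_left hmt1 hW0)
    calc P.lam * B ≤ P.lam * (W * t) := mul_le_mul_of_nonneg_left h3 hl.le
      _ = P.lam * W * t := by ring
      _ ≤ C2 / 4 * t := mul_le_mul_of_nonneg_right (by linarith) (by linarith)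
  have h3 : P.lam * B / (C2 * t ^ 3) ≤ 1 / (4 * t ^ 2) := by
    rw [div_le_div_iff₀ (by positivity) (by positivity)]
    have h4 : (0 : ℚ) < (t : ℚ) ^ 2 := by positivity
    calc P.lam * B * (4 * (t : ℚ) ^ 2) ≤ C2 / 4 * t * (4 * (t : ℚ) ^ 2) :=
          mul_le_mul_of_nonneg_right hBt (by positivity)
      _ = 1 * (C2 * (t : ℚ) ^ 3) := by ring
  have h4 : (1 : ℚ) ≤ (t : ℚ) ^ 2 := by nlinarith
  refine ⟨?_, ?_, ?_⟩
  · refine lt_of_le_of_lt h3 ?_
    rw [div_lt_one (by positivity)]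
    linarith
  · calc (m : ℚ) * (P.lam * B / (C2 * t ^ 3)) ≤ m * (1 / (4 * t ^ 2)) :=
          mul_le_mul_of_nonneg_left h3 hm0
      _ ≤ t * (1 / (4 * t ^ 2)) := mul_le_mul_of_nonneg_right hmt (by positivity)
      _ = 1 / (4 * t) := by
          field_simp
      _ ≤ 1 / (4 * (n + 1)) := by
          apply one_div_le_one_div_of_le (by positivity)
          linarith
  · have h5 : P.lam ^ 2 / (C1 * t ^ 3) ≤ 1 / (128 * t ^ 3) := by
      rw [div_le_div_iff₀ (by positivity) (by positivity)]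
      have : (0 : ℚ) < (t : ℚ) ^ 3 := by positivity
      nlinarith
    calc 8 * (m : ℚ) * (P.lam ^ 2 / (C1 * t ^ 3)) ≤ 8 * t * (1 / (128 * t ^ 3)) :=
          mul_le_mul (by linarith) h5 (by positivity) (by positivity)
      _ = (1 / (4 * t)) ^ 2 := by
          field_simp
          norm_num
      _ ≤ (1 / (4 * ((n : ℚ) + 1))) ^ 2 := by
          apply pow_le_pow_left₀ (by positivity)
          apply one_div_le_one_div_of_le (by positivity)
          linarith

private theorem gen_len (l : List (ℕ × ℕ)) : (nlE l).length ≤ l.length := by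
  have h : (labE l).length = l.length := by
    induction l with
    | nil => rfl
    | cons e l ih =>
      show (((labE l).length, e) :: labE l).length = _
      rw [List.length_cons, ih, List.length_cons]
  rw [← h]
  exact List.length_filter_le _ _

private theorem gen_tt (G : MG) (N : List Bool) :
    tt (G, N) ≤ (N487b59b3.bitEncode (G, N)).length := by
  show tt (G, N) ≤ Helper22.sz (G, N)
  have h1 : Helper22.sz (G, N) = 2 * Helper22.sz G + 1 + Helper22.sz N := Helper22.sz_pair G N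
  have h2 : Helper22.sz G = 2 * Helper22.sz G.1 + 1 + Helper22.sz G.2 := Helper22.sz_pair G.1 G.2
  have h3 := Helper22.length_le_sz G.2
  have h4 := Helper22.length_le_sz N
  have h5 : tt (G, N) = G.2.length + N.length + 1 := rfl
  omega

theorem fpras_gen {x y : ℚ} (hx : 1 < x) (hy0 : 0 ≤ y) (hy1 : y < 1) (D : ℕ) {τ : ℚ}
    (hτ : 0 < τ) (C : MG → Prop)
    (hC : ∀ G, Valid G → C G → Good (range G.1.length) D (1 / (x - 1)) y τ (nlE G.2).toFinset) :
    HasFPRAS C (tutte x y) := by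
  obtain ⟨P, hP, hPD, hPl, hPy, hPx⟩ := par_exists hx hy0 hy1 D
  obtain ⟨W, hW⟩ : ∃ W : ℚ, W = 2 ^ P.b * (4 + 4 * P.D / τ) := ⟨_, rfl⟩
  have hW0 : 0 ≤ W := by
    rw [hW]
    positivity
  have hx0 : 0 < x - 1 := by linarith
  have hl0 : 0 < P.lam := by
    rw [hPl]
    positivity
  obtain ⟨C1, hC1⟩ := exists_nat_ge (128 * P.lam ^ 2 + 1)
  obtain ⟨C2, hC2⟩ := exists_nat_ge (4 * (P.lam * W) + 1)
  have hC1p : 0 < C1 := by
    have : (0 : ℚ) < C1 := by
      have : 0 ≤ P.lam ^ 2 := by positivity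
      linarith
    exact_mod_cast this
  have hC2p : 0 < C2 := by
    have : (0 : ℚ) < C2 := by
      have : 0 ≤ P.lam * W := by positivity
      linarith
    exact_mod_cast this
  refine ⟨Polynomial.C (C1 * C2 * P.b) * (Polynomial.X + 1) ^ 7, alg P C1 C2, alg_poly P C1 C2, ?_⟩
  intro G hG hCG N
  obtain ⟨n, hn⟩ : ∃ n, n = (Polynomial.C (C1 * C2 * P.b) * (Polynomial.X + 1) ^ 7 : Polynomial ℕ).eval
      (N487b59b3.bitEncode (G, N)).length := ⟨_, rfl⟩
  rw [← hn]
  have hn' : n = C1 * C2 * P.b * ((N487b59b3.bitEncode (G, N)).length + 1) ^ 7 := by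
    rw [hn]
    simp
  have htt := gen_tt G N
  have htd : tt (G, N) = G.2.length + N.length + 1 := rfl
  obtain ⟨t, ht⟩ : ∃ t, t = tt (G, N) := ⟨_, rfl⟩
  have hCl := hC G hG hCG
  rw [← hPD, ← hPl, ← hPy] at hCl
  obtain ⟨pt, hS⟩ := sup_of_good hP hτ hCl
  have hm1 : (nlE G.2).length + 1 ≤ t := by
    have := gen_len G.2
    omega
  have hm : (nlE G.2).length ≤ t := by omega
  have hcard : (nlE G.2).toFinset.card = (nlE G.2).length :=
    List.toFinset_card_of_nodup (nodup_nlE G.2)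
  have hBW : 2 ^ P.b * ((4 + 4 * P.D / τ) * (((nlE G.2).toFinset.card : ℚ) + 1)) ≤
      W * (((nlE G.2).length : ℚ) + 1) := by
    rw [hcard, hW]
    exact le_of_eq (by ring)
  have hB0 : 0 ≤ 2 ^ P.b * ((4 + 4 * P.D / τ) * (((nlE G.2).toFinset.card : ℚ) + 1)) := by
    positivity
  have hNt : N.length + 1 ≤ t := by omega
  have ht0 : 0 < t := by omega
  obtain ⟨g0, g1, g2⟩ := gen_le hW0 hl0 hC1 hC2 hBW hm1 hNt
  have hk : 0 < C1 * t ^ 3 := by positivity
  have hL : 0 < C2 * t ^ 3 := by positivity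
  have hη : (0 : ℚ) < 1 / (4 * ((N.length : ℚ) + 1)) := by positivity
  have hη1 : (1 : ℚ) / (4 * ((N.length : ℚ) + 1)) ≤ 1 := by
    rw [div_le_one (by positivity)]
    have : (0 : ℚ) ≤ (N.length : ℚ) := by positivity
    linarith
  have key := est_good hP hB0 hS hk hL (nodup_nlE G.2) hη hη1 g0 g1 g2
  have hbits : (nlE G.2).length * (C1 * t ^ 3 * (C2 * t ^ 3 * P.b)) ≤ n := by
    rw [hn']
    calc (nlE G.2).length * (C1 * t ^ 3 * (C2 * t ^ 3 * P.b))
        ≤ t * (C1 * t ^ 3 * (C2 * t ^ 3 * P.b)) := Nat.mul_le_mul_right _ hm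
      _ = C1 * C2 * P.b * t ^ 7 := by ring
      _ ≤ C1 * C2 * P.b * ((N487b59b3.bitEncode (G, N)).length + 1) ^ 7 := by
          apply Nat.mul_le_mul_left
          apply Nat.pow_le_pow_left
          omega
  rw [← avg_take hbits] at key
  simp only [numer_take] at key
  rw [avg_count, le_div_iff₀ (by positivity), Finset.sum_boole] at key
  refine le_trans key ?_
  have hZ : 0 ≤ Z P.lam P.y (nlE G.2).toFinset :=
    (Z_pos hl0 (by rw [hPy]; exact hy0) (by rw [hPy]; exact hy1) hCl.1.1).le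
  have hval : ∀ r : Fin n → Bool,
      (((alg P C1 C2 ((G, N), List.ofFn r)).1 : ℚ) / ((alg P C1 C2 ((G, N), List.ofFn r)).2 : ℚ)) =
      (x - 1) ^ (mergers G).length * y ^ (lps G.2).length *
        ((numer P (C1 * t ^ 3) (C2 * t ^ 3) (nlE G.2) (List.ofFn r) : ℚ) /
          denom P (C1 * t ^ 3) (nlE G.2)) := by
    intro r
    rw [ht]
    exact gen_val hP hPx hPy _ _ _ _
  have hden : ∀ r : Fin n → Bool, (alg P C1 C2 ((G, N), List.ofFn r)).2 ≠ 0 := by
    intro r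
    have h1 := denom_pos hP hk (nlE G.2)
    have h2 : 0 < P.c := hP.1
    have h3 : 0 < P.y2 := lt_of_le_of_lt (Nat.zero_le _) hP.2.2.1
    have h4 : (alg P C1 C2 ((G, N), List.ofFn r)).2 =
        P.c ^ (mergers G).length * P.y2 ^ (lps G.2).length * denom P (C1 * t ^ 3) (nlE G.2) := by
      rw [ht]
      rfl
    rw [h4]
    positivity
  have htut := tutte_eq hG hx hy1
  rw [← hPl] at htut
  obtain ⟨pref, hpref⟩ : ∃ pref, pref = (x - 1) ^ (mergers G).length * y ^ (lps G.2).length := ⟨_, rfl⟩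
  have hpref0 : 0 ≤ pref := by
    rw [hpref]
    positivity
  have htut' : tutte x y G = pref * Z P.lam P.y (nlE G.2).toFinset := by
    rw [hpref, hPy]
    exact htut
  have hclose : ∀ r : Fin n → Bool,
      |(numer P (C1 * t ^ 3) (C2 * t ^ 3) (nlE G.2) (List.ofFn r) : ℚ) /
          denom P (C1 * t ^ 3) (nlE G.2) - Z P.lam P.y (nlE G.2).toFinset| ≤
        2 * (1 / (4 * ((N.length : ℚ) + 1))) * Z P.lam P.y (nlE G.2).toFinset →
      (alg P C1 C2 ((G, N), List.ofFn r)).2 ≠ 0 ∧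
        Close (1 / (N.length + 1)) (tutte x y G)
          ((alg P C1 C2 ((G, N), List.ofFn r)).1 / (alg P C1 C2 ((G, N), List.ofFn r)).2) := by
    intro r hr
    refine ⟨hden r, ?_⟩
    apply close_of (by rw [htut']; positivity)
    rw [hval r, htut', ← hpref, ← mul_sub, abs_mul, abs_of_nonneg hpref0]
    calc pref * |(numer P (C1 * t ^ 3) (C2 * t ^ 3) (nlE G.2) (List.ofFn r) : ℚ) /
          denom P (C1 * t ^ 3) (nlE G.2) - Z P.lam P.y (nlE G.2).toFinset|
        ≤ pref * (2 * (1 / (4 * ((N.length : ℚ) + 1))) * Z P.lam P.y (nlE G.2).toFinset) :=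
          mul_le_mul_of_nonneg_left hr hpref0
      _ = 1 / (2 * (N.length + 1)) * (pref * Z P.lam P.y (nlE G.2).toFinset) := by
          field_simp
          norm_num
  refine (Nat.cast_le (α := ℚ)).2 (Finset.card_le_card ?_)
  classical
  intro r hr
  rw [Finset.mem_filter] at hr ⊢
  exact ⟨hr.1, hclose r hr.2⟩

end Pool.Agent.TFU
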