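import Pool.Agent.TFU.Gen
import Pool.Agent.TFU.Cls

set_option autoImplicit false

/-!
# TFU-Main: the theorem
-/

namespace Pool.Agent.TFU

open Finset Pool.Agent.Helper47.TR Pool.Agent.TFP

theorem main (x y : ℚ) (hx : 1 < x) (hy0 : 0 ≤ y) (hy1 : y < 1) :
    HasFPRAS (fun G => ∀ v, (deg G v : ℚ) < x + 1) (tutte x y) ∧
    HasFPRAS (fun G => (∀ v, (deg G v : ℚ) ≤ x + 1) ∧ (0 < y ∨ NoPar G)) (tutte x y) := by
  have hx1 : 0 < x - 1 := by linarith
  have hx0 : 0 < x := by linarith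
  have hl : (0 : ℚ) < 1 / (x - 1) := by positivity
  have hp : 1 / (x - 1) / (1 + 1 / (x - 1)) = 1 / x := by
    have h1 : 1 + 1 / (x - 1) = x / (x - 1) := by
      field_simp
      ring
    rw [h1]
    field_simp
  constructor
  · have hD : 1 / (x - 1) / (1 + 1 / (x - 1)) * ((⌈x⌉₊ : ℚ) - 1) < 1 := by
      have h2 := Nat.ceil_lt_add_one (show 0 ≤ x by linarith)
      rw [hp, one_div_mul_eq_div, div_lt_one hx0]
      linarith
    refine fpras_gen hx hy0 hy1 ⌈x⌉₊ (sub_pos.2 hD) _ (fun G hG h => ?_)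
    refine good_sub hl hy0 hy1 (cl_mg hG fun v => ?_) hD
    have h1 : (deg G v : ℚ) < x + 1 := h v
    have h2 : deg G v < ⌈x + 1⌉₊ := Nat.lt_ceil.mpr h1
    rw [Nat.ceil_add_one hx0.le] at h2
    omega
  · have hfl : ((⌊x⌋₊ : ℕ) : ℚ) ≤ x := Nat.floor_le (by linarith)
    have hD : 1 / (x - 1) / (1 + 1 / (x - 1)) * (((⌊x⌋₊ + 1 : ℕ) : ℚ) - 1) ≤ 1 := by
      rw [hp, one_div_mul_eq_div, div_le_one hx0]
      push_cast
      linarith
    have hdeg : ∀ G : MG, (∀ v, (deg G v : ℚ) ≤ x + 1) → ∀ v, deg G v ≤ ⌊x⌋₊ + 1 := by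
      intro G h v
      have h1 : deg G v ≤ ⌊x + 1⌋₊ := Nat.le_floor (h v)
      rwa [Nat.floor_add_one hx0.le] at h1
    rcases hy0.lt_or_eq with hy | hy
    · refine fpras_gen hx hy0 hy1 (⌊x⌋₊ + 1) (τ := y / (1 + 1 / (x - 1))) (by positivity) _
        (fun G hG h => ?_)
      exact good_pos hl hy0 hy1 (cl_mg hG (hdeg G h.1)) hD
    · subst hy
      refine fpras_gen hx hy0 hy1 (⌊x⌋₊ + 1) (τ := (1 / (1 + 1 / (x - 1))) ^ (⌊x⌋₊ + 1 + 1))
        (by positivity) _ (fun G hG h => ?_)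
      have hS : NoPar G := by
        rcases h.2 with h2 | h2
        · exact absurd h2 (lt_irrefl _)
        · exact h2
      exact good_sim hl (cl_mg hG (hdeg G h.1)) (sim_mg hS) hD

end Pool.Agent.TFU
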