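import Pool.Agent.TFU.InvS
import Pool.Agent.TFP.ZEr

set_option autoImplicit false

/-!
# TFU-ValB: bounds of the value functions

As in `TFP.ValB`, for an arbitrary potential on the subgraphs of `E`.
-/

namespace Pool.Agent.TFU

open Finset Pool.Agent.TFP

private def vbF (V : Finset ℕ) (E : Finset Ed) (f : Frame) : Prop :=
  f.1 = true → insert f.2.1.2 f.2.2.1.toFinset ⊆ E ∧ f.2.1.1 ∈ V

private theorem vb_inv {V : Finset ℕ} {E : Finset Ed} {s : St} (hs : Inv V E s) :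
    ∀ f ∈ s.2.2, vbF V E f := by
  intro f hf h1
  obtain ⟨-, hC, hv, -⟩ := hs.2 f hf h1
  rw [List.toFinset_cons] at hC
  exact ⟨hC, hv⟩

private theorem vb_out (K : Finset ℕ) (e : Ed) (G : Finset Ed) : out K G ⊆ insert e G :=
  (Finset.filter_subset _ _).trans (Finset.subset_insert _ _)

private theorem vb_sum_nonneg {lam y : ℚ} (hl : 0 < lam) (hy0 : 0 ≤ y) (hy1 : y < 1)
    {G : Finset Ed} (hG : NL G) (V : Finset ℕ) (v : ℕ) {R : Finset ℕ → ℚ} (hR : ∀ S, 0 ≤ R S) :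
    0 ≤ ∑ S ∈ V.powerset, q lam y G v S * R S :=
  Finset.sum_nonneg fun S _ => mul_nonneg (q_nonneg hl hy0 hy1 hG v S) (hR S)

private theorem vb_sum_le {lam y : ℚ} (hl : 0 < lam) (hy0 : 0 ≤ y) (hy1 : y < 1)
    {G : Finset Ed} (hG : NL G) {V : Finset ℕ} (hV : ends G ⊆ V) {v : ℕ} (hv : v ∈ V)
    {R : Finset ℕ → ℚ} (hR : ∀ S, R S ≤ 1) :
    ∑ S ∈ V.powerset, q lam y G v S * R S ≤ 1 := by
  rw [← q_sum hl hy0 hy1 hG hV hv]
  exact Finset.sum_le_sum fun S _ => mul_le_of_le_one_right (q_nonneg hl hy0 hy1 hG v S) (hR S)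

private theorem vb_RR_nonneg {lam y : ℚ} (hl : 0 < lam) (hy0 : 0 ≤ y) (hy1 : y < 1)
    {V : Finset ℕ} {E : Finset Ed} (hE : NL E) {nE : Finset Ed → ℕ → ℚ} {κ : ℚ}
    {F : Finset ℕ → ℚ}
    (hn : ∀ G ⊆ E, ∀ v ∈ V, 0 ≤ nE G v) (hκ : 0 ≤ κ) (hF : ∀ K, 0 ≤ F K) :
    ∀ st : List Frame, (∀ f ∈ st, vbF V E f) → ∀ K, 0 ≤ RR lam y V nE κ F st K := by
  intro st
  induction st with
  | nil => intro _ K; exact hF K
  | cons f st ih =>
    intro h K
    have ih' := ih fun g hg => h g (List.mem_cons_of_mem _ hg)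
    rw [RR]
    by_cases h1 : f.1 = true
    · rw [if_pos h1]
      obtain ⟨a1, a3⟩ := h f (by simp) h1
      have a2 : out K f.2.2.1.toFinset ⊆ E := (vb_out K _ _).trans a1
      have b1 : NL (out K f.2.2.1.toFinset) := hE.mono a2
      have t0 := thK_nonneg hy0 f.2.1.1 K f.2.2.1.toFinset
      have t1 := thK_le_one hy0 hy1 f.2.1.1 K f.2.2.1.toFinset
      have s1 := vb_sum_nonneg hl hy0 hy1 b1 V f.2.1.1
        (R := fun S => κ + RR lam y V nE κ F st (K ∪ S)) (fun S => add_nonneg hκ (ih' _))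
      have s2 := vb_sum_nonneg hl hy0 hy1 (hE.mono a1) V f.2.1.1
        (R := fun S => RR lam y V nE κ F st S) ih'
      have n1 := hn (out K f.2.2.1.toFinset) a2 f.2.1.1 a3
      have n2 := hn (insert f.2.1.2 f.2.2.1.toFinset) a1 f.2.1.1 a3
      exact add_nonneg hκ (add_nonneg (mul_nonneg t0 (add_nonneg n1 s1))
        (mul_nonneg (by linarith) (add_nonneg n2 s2)))
    · rw [if_neg h1]
      exact add_nonneg hκ (ih' _)

private theorem vb_RR_le {lam y : ℚ} (hl : 0 < lam) (hy0 : 0 ≤ y) (hy1 : y < 1)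
    {V : Finset ℕ} {E : Finset Ed} (hE : NL E) (hV : ends E ⊆ V) {F : Finset ℕ → ℚ}
    (hF : ∀ K, F K ≤ 1) :
    ∀ st : List Frame, (∀ f ∈ st, vbF V E f) → ∀ K,
      RR lam y V (fun _ _ => 0) 0 F st K ≤ 1 := by
  intro st
  induction st with
  | nil => intro _ K; exact hF K
  | cons f st ih =>
    intro h K
    have ih' := ih fun g hg => h g (List.mem_cons_of_mem _ hg)
    rw [RR]
    by_cases h1 : f.1 = true
    · rw [if_pos h1]
      obtain ⟨a1, a3⟩ := h f (by simp) h1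
      have a2 : out K f.2.2.1.toFinset ⊆ E := (vb_out K _ _).trans a1
      have b1 : NL (out K f.2.2.1.toFinset) := hE.mono a2
      have b2 : ends (out K f.2.2.1.toFinset) ⊆ V := (ends_mono a2).trans hV
      have t0 := thK_nonneg hy0 f.2.1.1 K f.2.2.1.toFinset
      have t1 := thK_le_one hy0 hy1 f.2.1.1 K f.2.2.1.toFinset
      have s1 := vb_sum_le hl hy0 hy1 b1 b2 a3
        (R := fun S => 0 + RR lam y V (fun _ _ => 0) 0 F st (K ∪ S))
        (fun S => by rw [zero_add]; exact ih' _)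
      have s2 := vb_sum_le hl hy0 hy1 (hE.mono a1) ((ends_mono a1).trans hV) a3
        (R := fun S => RR lam y V (fun _ _ => 0) 0 F st S) ih'
      have m1 := mul_le_mul_of_nonneg_left s1 t0
      have m2 := mul_le_mul_of_nonneg_left s2 (sub_nonneg.mpr t1)
      simp only [zero_add] at m1 m2 ⊢
      linarith
    · rw [if_neg h1, zero_add]
      exact ih' _

theorem Val_mem {lam y : ℚ} (hl : 0 < lam) (hy0 : 0 ≤ y) (hy1 : y < 1) {V : Finset ℕ}
    {E : Finset Ed} (hE : NL E) (hV : ends E ⊆ V)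
    {F : Finset ℕ → ℚ} (hF : ∀ K, 0 ≤ F K ∧ F K ≤ 1) {s : St}
    (hs : Inv V E s) :
    0 ≤ Val lam y V (fun _ _ => 0) 0 F s ∧ Val lam y V (fun _ _ => 0) 0 F s ≤ 1 := by
  have hf := vb_inv hs
  have h0 := vb_RR_nonneg hl hy0 hy1 (V := V) hE (nE := fun _ _ => 0) (κ := 0) (F := F)
    (fun _ _ _ _ => le_rfl) le_rfl (fun K => (hF K).1) s.2.2 hf
  have h1 := vb_RR_le hl hy0 hy1 (V := V) hE hV (F := F) (fun K => (hF K).2) s.2.2 hf
  unfold Val
  by_cases hs1 : s.1 = true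
  · rw [if_pos hs1]
    obtain ⟨-, hC, hv⟩ := hs.1 hs1
    rw [zero_add]
    exact ⟨vb_sum_nonneg hl hy0 hy1 (hE.mono hC) V _ h0,
      vb_sum_le hl hy0 hy1 (hE.mono hC) ((ends_mono hC).trans hV) hv h1⟩
  · rw [if_neg hs1]
    exact ⟨h0 _, h1 _⟩

theorem Pot_nonneg {P : Par} (hl : 0 < P.lam) (hy0 : 0 ≤ P.y) (hy1 : P.y < 1) {V : Finset ℕ}
    {E : Finset Ed} {n : Finset Ed → ℕ → ℚ} {B : ℚ} (hn : Sup P V E n B) {s : St}
    (hs : Inv V E s) : 0 ≤ Pot P V n s := by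
  have hf := vb_inv hs
  have h0 := vb_RR_nonneg hl hy0 hy1 (V := V) hn.nl
    (nE := n) (κ := 2 ^ P.b) (F := fun _ => 0)
    hn.nn (by positivity) (fun _ => le_rfl) s.2.2 hf
  unfold Pot Val
  by_cases hs1 : s.1 = true
  · rw [if_pos hs1]
    obtain ⟨-, hC, hv⟩ := hs.1 hs1
    exact add_nonneg (hn.nn _ hC _ hv) (vb_sum_nonneg hl hy0 hy1 (hn.nl.mono hC) V _ h0)
  · rw [if_neg hs1]
    exact h0 _

theorem Pot_start {P : Par} {V : Finset ℕ} {E : Finset Ed} {n : Finset Ed → ℕ → ℚ} {B : ℚ}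
    (hn : Sup P V E n B) {G : List Ed} (hG : G.toFinset ⊆ E) {v : ℕ} (hv : v ∈ V) :
    Pot P V n (ev v G []) ≤ B := by
  have e : Pot P V n (ev v G []) = n G.toFinset v := by
    unfold Pot Val
    rw [if_pos rfl]
    have : ∑ S ∈ V.powerset, q P.lam P.y G.toFinset v S *
        RR P.lam P.y V n (2 ^ P.b) (fun _ => 0) [] S = 0 :=
      Finset.sum_eq_zero fun S _ => by rw [RR, mul_zero]
    rw [this, add_zero]
  rw [e]
  exact hn.bd _ hG v hv

end Pool.Agent.TFU
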