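import Pool.Agent.TFU.Dc
import Pool.Agent.TFP.ThLow

set_option autoImplicit false

/-!
# TFU-Tau: the edge sets for which the running time is controlled

`τ Pr ≤ 1 - p (D - 1) + (Pc - Pr) + p Ga`, `p = lam / (1 + lam)`:
(i) `p (D - 1) < 1`, `τ = 1 - p (D - 1)` (as `Pr ≤ 1`);
(ii) `y > 0`, `p (D - 1) ≤ 1`, `τ = y / (1 + lam)` (as `Pr = Pc (1 - y / (1 + lam))`);
(iii) `y = 0`, no parallel edges, `p (D - 1) ≤ 1`, `τ = (1 / (1 + lam)) ^ (D + 1)`
(as `Ga ≥ (1 / (1 + lam)) ^ D Pc / lam`, by the term `K = {u}`).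
-/

namespace Pool.Agent.TFU

open Finset Pool.Agent.TFP

variable {lam y : ℚ}

theorem Ga_nonneg (hl : 0 < lam) (hy0 : 0 ≤ y) (hy1 : y < 1) {G : Finset Ed} (hG : NL G)
    (V : Finset ℕ) (u v : ℕ) : 0 ≤ Ga lam y V G u v := by
  unfold Ga
  refine sum_nonneg fun K _ => mul_nonneg (q_nonneg hl hy0 hy1 hG u K)
    (mul_nonneg (thK_nonneg hy0 v K _) (sum_nonneg fun S _ => mul_nonneg
      (q_nonneg hl hy0 hy1 (hG.mono (filter_subset _ _)) v S) ?_))
  split_ifs
  · exact le_rfl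
  · exact zero_le_one

theorem Pr_nonneg (hl : 0 < lam) (hy0 : 0 ≤ y) (hy1 : y < 1) {G : Finset Ed} (hG : NL G)
    {V : Finset ℕ} (hV : ends G ⊆ V) {u : ℕ} (hu : u ∈ V) (v : ℕ) : 0 ≤ Pr lam y V G u v := by
  have h1 := th_le_one hl hy0 hy1 hG hV hu v
  unfold Pr
  exact mul_nonneg (by positivity) (by linarith)

theorem Pr_le_one (hl : 0 < lam) (hy0 : 0 ≤ y) (hy1 : y < 1) {G : Finset Ed} (hG : NL G)
    (V : Finset ℕ) (u v : ℕ) : Pr lam y V G u v ≤ 1 := by
  have h1 := th_nonneg hl hy0 hy1 hG V u v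
  have h2 : lam / (1 + lam) ≤ 1 := by
    rw [div_le_one (by linarith)]
    linarith
  have h3 : 0 ≤ lam / (1 + lam) := by positivity
  unfold Pr
  nlinarith

theorem good_sub (hl : 0 < lam) (hy0 : 0 ≤ y) (hy1 : y < 1) {V : Finset ℕ} {D : ℕ}
    {E : Finset Ed} (hE : Cl V D E) (h : lam / (1 + lam) * (D - 1) < 1) :
    Good V D lam y (1 - lam / (1 + lam) * (D - 1)) E := by
  refine ⟨hE, fun G hGE e he v u hJ => ?_⟩
  have hG := hE.mono hGE
  have hG' := hG.mono (erase_subset e G)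
  have hvu := ne_of hG.1 he hJ
  obtain ⟨hv, hu⟩ := mem_V hG.2.1 he hJ
  have h1 := Pr_le_one hl hy0 hy1 hG'.1 V u v
  have h2 := Ga_nonneg hl hy0 hy1 hG'.1 V u v
  have h3 := Pc_nonneg hl hy0 hy1 hG'.1 V u v
  have h4 := Pr_eq hl hy0 hy1 hG'.1 hG'.2.1 hvu hv hu
  have h5 : 0 ≤ lam / (1 + lam) := by positivity
  have h6 : 0 ≤ y / (1 + lam) := by positivity
  have h7 : 0 ≤ Pc lam y V (G.erase e) u v - Pr lam y V (G.erase e) u v := by
    rw [h4]
    nlinarith [mul_nonneg h3 h6]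
  have h8 := mul_nonneg h5 h2
  have h9 := mul_le_mul_of_nonneg_left h1 (sub_nonneg.2 h.le)
  linarith

theorem good_pos (hl : 0 < lam) (hy0 : 0 ≤ y) (hy1 : y < 1) {V : Finset ℕ} {D : ℕ}
    {E : Finset Ed} (hE : Cl V D E) (h : lam / (1 + lam) * (D - 1) ≤ 1) :
    Good V D lam y (y / (1 + lam)) E := by
  refine ⟨hE, fun G hGE e he v u hJ => ?_⟩
  have hG := hE.mono hGE
  have hG' := hG.mono (erase_subset e G)
  have hvu := ne_of hG.1 he hJ
  obtain ⟨hv, hu⟩ := mem_V hG.2.1 he hJ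
  have h2 := Ga_nonneg hl hy0 hy1 hG'.1 V u v
  have h3 := Pc_nonneg hl hy0 hy1 hG'.1 V u v
  have h4 := Pr_eq hl hy0 hy1 hG'.1 hG'.2.1 hvu hv hu
  have h5 : 0 ≤ lam / (1 + lam) := by positivity
  have h6 : 0 ≤ y / (1 + lam) := by positivity
  have h8 := mul_nonneg h5 h2
  have h9 : y / (1 + lam) * Pr lam y V (G.erase e) u v ≤
      Pc lam y V (G.erase e) u v - Pr lam y V (G.erase e) u v := by
    rw [h4]
    have h10 := mul_nonneg h3 (mul_nonneg h6 h6)
    linarith
  linarith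

/-! ## The simple case at `y = 0` -/

private theorem out_out (K S : Finset ℕ) (G : Finset Ed) : out S (out K G) = out K (out S G) := by
  ext f
  unfold out
  simp only [mem_filter]
  tauto

private theorem ins_out {u : ℕ} {S : Finset ℕ} (hu : u ∉ S) (G : Finset Ed) :
    ins S (out {u} G) = ins S G := by
  ext f
  unfold ins out
  simp only [mem_filter, mem_singleton]
  constructor
  · rintro ⟨h1, h2⟩
    exact ⟨h1.1, h2⟩
  · rintro ⟨h1, h2, h3⟩
    exact ⟨⟨h1, fun h => hu (h ▸ h2), fun h => hu (h ▸ h3)⟩, h2, h3⟩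

private theorem q_swap (hl : 0 < lam) (hy0 : 0 ≤ y) (hy1 : y < 1) {G : Finset Ed} (hG : NL G)
    (u v : ℕ) {S : Finset ℕ} (hu : u ∉ S) :
    q lam y G u {u} * q lam y (out {u} G) v S = q lam y G v S * q lam y (out S G) u {u} := by
  have hS : NL (out S G) := hG.mono (filter_subset _ _)
  have hU : NL (out {u} G) := hG.mono (filter_subset _ _)
  have hZ := (Z_pos hl hy0 hy1 hG).ne'
  have hZS := (Z_pos hl hy0 hy1 hS).ne'
  have hZU := (Z_pos hl hy0 hy1 hU).ne'
  rw [q_single hy1 hG, q_single hy1 hS]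
  have h1 : q lam y (out {u} G) v S = (if v ∈ S then (lam / (y - 1)) ^ (S.card - 1) *
      cc (y - 1) S G * Z lam y (out {u} (out S G)) else 0) / Z lam y (out {u} G) := by
    unfold q ww
    have h2 : cc (y - 1) S (out {u} G) = cc (y - 1) S G := by
      unfold cc
      rw [ins_out hu]
    rw [h2, out_out {u} S G]
    rfl
  have h2 : q lam y G v S = (if v ∈ S then (lam / (y - 1)) ^ (S.card - 1) *
      cc (y - 1) S G * Z lam y (out S G) else 0) / Z lam y G := rfl
  rw [h1, h2]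
  by_cases hv : v ∈ S
  · rw [if_pos hv, if_pos hv]
    field_simp
  · rw [if_neg hv, if_neg hv]
    simp

private theorem crs_btw (u : ℕ) (S : Finset ℕ) (G : Finset Ed) : crs {u} S G = btw u S G := by
  ext f
  unfold crs TFP.btw
  simp only [mem_filter, mem_singleton]

theorem Ga_low (hl : 0 < lam) {V : Finset ℕ} {D : ℕ} {G : Finset Ed} (hG : Cl V D G)
    {v u : ℕ} (hvu : v ≠ u) (hu : u ∈ V) (hn : btw v {u} G = ∅) :
    (1 / (1 + lam)) ^ D * (Pc lam 0 V G u v / lam) ≤ Ga lam 0 V G u v := by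
  classical
  have hy1 : (0 : ℚ) < 1 := zero_lt_one
  have h0 : (0 : ℚ) ≤ 0 := le_rfl
  -- the term `K = {u}`
  have h1 : q lam 0 G u {u} * (thK 0 v {u} G *
      ∑ S ∈ V.powerset, q lam 0 (out {u} G) v S * (if (crs {u} S G).card = 0 then 0 else 1)) ≤
      Ga lam 0 V G u v := by
    unfold Ga
    refine single_le_sum (f := fun K => q lam 0 G u K * (thK 0 v K G *
      ∑ S ∈ V.powerset, q lam 0 (out K G) v S * (if (crs K S G).card = 0 then 0 else 1)))
      (fun K _ => ?_) ?_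
    · refine mul_nonneg (q_nonneg hl h0 hy1 hG.1 u K)
        (mul_nonneg (thK_nonneg h0 v K _) (sum_nonneg fun S _ => mul_nonneg
          (q_nonneg hl h0 hy1 (hG.1.mono (filter_subset _ _)) v S) ?_))
      split_ifs
      · exact le_rfl
      · exact zero_le_one
    · rw [mem_powerset, singleton_subset_iff]
      exact hu
  refine le_trans ?_ h1
  have h2 : thK 0 v {u} G = 1 := by
    unfold thK
    rw [if_neg, hn, card_empty, pow_zero]
    rw [mem_singleton]
    exact hvu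
  rw [h2, one_mul]
  -- the probability that `u` is in the cluster of `v`
  have h3 : Pc lam 0 V G u v / lam = ∑ S ∈ V.powerset, q lam 0 G v S *
      (if u ∈ S then 0 else TFN.br 0 (btw u S G).card) := by
    rw [Pc_symm, Pc_eq hl h0 hy1 hG.1 hG.2.1 hvu.symm hu]
    field_simp
  rw [h3, mul_sum, mul_sum]
  refine sum_le_sum fun S _ => ?_
  have hqS := q_nonneg hl h0 hy1 hG.1 v S
  have hS := hG.mono (filter_subset (fun e => e.2.1 ∉ S ∧ e.2.2 ∉ S) G)
  by_cases huS : u ∈ S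
  · rw [if_pos huS]
    have h4 : 0 ≤ q lam 0 G u {u} * (q lam 0 (out {u} G) v S *
        (if (crs {u} S G).card = 0 then 0 else 1)) := by
      refine mul_nonneg (q_nonneg hl h0 hy1 hG.1 u _) (mul_nonneg
          (q_nonneg hl h0 hy1 (hG.1.mono (filter_subset _ _)) v S) ?_)
      split_ifs
      · exact le_rfl
      · exact zero_le_one
    simpa using h4
  · rw [if_neg huS, crs_btw, ← mul_assoc (q lam 0 G u {u}), q_swap hl h0 hy1 hG.1 u v huS]
    have h4 : TFN.br 0 (btw u S G).card = (if (btw u S G).card = 0 then (0 : ℚ) else 1) := by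
      rcases Nat.eq_zero_or_pos (btw u S G).card with h5 | h5
      · rw [h5, if_pos rfl, TFN.br_zero]
      · obtain ⟨j, hj⟩ : ∃ j, (btw u S G).card = j + 1 := ⟨_, (Nat.succ_pred_eq_of_pos h5).symm⟩
        rw [hj, TFN.br_succ', if_neg (Nat.succ_ne_zero j)]
        ring
    rw [h4]
    have h5 : (1 / (1 + lam)) ^ D ≤ q lam 0 (out S G) u {u} := by
      refine le_trans ?_ (q_single_low hl h0 hy1 hS.1 u)
      refine pow_le_pow_of_le_one (by positivity) ?_ (hS.2.2 u)
      rw [div_le_one (by linarith)]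
      linarith
    have h6 : (0 : ℚ) ≤ (if (btw u S G).card = 0 then (0 : ℚ) else 1) := by
      split_ifs
      · exact le_rfl
      · exact zero_le_one
    have h7 := mul_le_mul_of_nonneg_right (mul_le_mul_of_nonneg_left h5 hqS) h6
    calc (1 / (1 + lam)) ^ D * (q lam 0 G v S * (if (btw u S G).card = 0 then (0 : ℚ) else 1)) =
        q lam 0 G v S * (1 / (1 + lam)) ^ D * (if (btw u S G).card = 0 then (0 : ℚ) else 1) := by
          ring
      _ ≤ _ := h7

theorem good_sim (hl : 0 < lam) {V : Finset ℕ} {D : ℕ} {E : Finset Ed} (hE : Cl V D E)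
    (hS : Sim E) (h : lam / (1 + lam) * (D - 1) ≤ 1) :
    Good V D lam 0 ((1 / (1 + lam)) ^ (D + 1)) E := by
  refine ⟨hE, fun G hGE e he v u hJ => ?_⟩
  have hG := hE.mono hGE
  have hG' := hG.mono (erase_subset e G)
  have hvu := ne_of hG.1 he hJ
  obtain ⟨hv, hu⟩ := mem_V hG.2.1 he hJ
  have hn : btw v {u} (G.erase e) = ∅ := by
    unfold TFP.btw
    rw [filter_eq_empty_iff]
    intro f hf hf2
    rw [mem_erase] at hf
    apply hf.1
    refine hS f (hGE hf.2) e (hGE he) v u ?_ hJ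
    simp only [mem_singleton] at hf2
    rcases hf2 with h1 | h1
    · exact Or.inl h1
    · exact Or.inr ⟨h1.2, h1.1⟩
  have h1 := Ga_low hl hG' hvu hu hn
  have h2 := Pr_eq hl (le_refl (0 : ℚ)) zero_lt_one hG'.1 hG'.2.1 hvu hv hu
  have h3 := Pc_nonneg hl (le_refl (0 : ℚ)) zero_lt_one hG'.1 V u v
  rw [zero_div, sub_zero, mul_one] at h2
  rw [h2]
  have h5 : 0 ≤ lam / (1 + lam) := by positivity
  have h6 := mul_le_mul_of_nonneg_left h1 h5
  have h7 : lam / (1 + lam) * ((1 / (1 + lam)) ^ D * (Pc lam 0 V (G.erase e) u v / lam)) =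
      (1 / (1 + lam)) ^ (D + 1) * Pc lam 0 V (G.erase e) u v := by
    rw [pow_succ]
    have : (1 + lam) ≠ 0 := by positivity
    field_simp
  rw [h7] at h6
  linarith

end Pool.Agent.TFU
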