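import Pool.Agent.TFU.Defs
import Pool.Agent.TFP.ZEr

set_option autoImplicit false

/-!
# TFU-Vol: volumes of sets of vertices
-/

namespace Pool.Agent.TFU

open Finset Pool.Agent.TFP

private theorem star_erase (G : Finset Ed) (e : Ed) (v : ℕ) :
    TFP.star v (G.erase e) = (TFP.star v G).erase e := by
  ext f
  unfold TFP.star
  simp only [mem_filter, mem_erase]
  tauto

private theorem mem_star {G : Finset Ed} {e : Ed} {w : ℕ} :
    e ∈ TFP.star w G ↔ e ∈ G ∧ (e.2.1 = w ∨ e.2.2 = w) := by
  unfold TFP.star
  rw [mem_filter]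

private theorem jn_star {e : Ed} {v u : ℕ} (hJ : Jn e v u) (w : ℕ) :
    (e.2.1 = w ∨ e.2.2 = w) ↔ (w = v ∨ w = u) := by
  rcases hJ with ⟨h1, h2⟩ | ⟨h1, h2⟩
  · rw [h1, h2]
    constructor
    · rintro (h | h)
      · exact Or.inl h.symm
      · exact Or.inr h.symm
    · rintro (h | h)
      · exact Or.inl h.symm
      · exact Or.inr h.symm
  · rw [h1, h2]
    constructor
    · rintro (h | h)
      · exact Or.inr h.symm
      · exact Or.inl h.symm
    · rintro (h | h)
      · exact Or.inr h.symm
      · exact Or.inl h.symm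

private theorem deg_erase {G : Finset Ed} {e : Ed} (he : e ∈ G) {v u : ℕ} (hvu : v ≠ u)
    (hJ : Jn e v u) (w : ℕ) :
    ((TFP.star w G).card : ℚ) = (TFP.star w (G.erase e)).card + (if w = v then 1 else 0) +
      (if w = u then 1 else 0) := by
  have hm : e ∈ TFP.star w G ↔ (w = v ∨ w = u) := by
    rw [mem_star, jn_star hJ w]
    exact ⟨fun h => h.2, fun h => ⟨he, h⟩⟩
  by_cases h : w = v ∨ w = u
  · have h1 := card_erase_add_one (hm.2 h)
    have h2 : ((TFP.star w G).card : ℚ) = (TFP.star w (G.erase e)).card + 1 := by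
      rw [star_erase]
      exact_mod_cast h1.symm
    rw [h2]
    rcases h with h | h
    · rw [if_pos h, if_neg (fun h3 => hvu (h.symm.trans h3))]
      ring
    · rw [if_pos h, if_neg (fun h3 => hvu (h3.symm.trans h))]
      ring
  · have h1 : TFP.star w (G.erase e) = TFP.star w G := by
      rw [star_erase]
      exact erase_eq_of_notMem fun h2 => h (hm.1 h2)
    rw [not_or] at h
    rw [h1, if_neg h.1, if_neg h.2]
    ring

/-- deletion of an edge -/
theorem vol_erase {G : Finset Ed} {e : Ed} (he : e ∈ G) {v u : ℕ} (hvu : v ≠ u)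
    (hJ : Jn e v u) (S : Finset ℕ) :
    vol G S = vol (G.erase e) S + (if v ∈ S then 1 else 0) + (if u ∈ S then 1 else 0) := by
  unfold vol
  rw [sum_congr rfl fun w _ => deg_erase he hvu hJ w, sum_add_distrib, sum_add_distrib,
    sum_ite_eq' S v, sum_ite_eq' S u]

/-- union of two disjoint sets -/
theorem vol_cross {G : Finset Ed} {K S : Finset ℕ} (h : Disjoint K S) :
    vol G (K ∪ S) = vol G K + vol (out K G) S + (crs K S G).card := by
  classical
  have h1 : vol G (K ∪ S) = vol G K + vol G S := by
    unfold vol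
    exact sum_union h
  have h2 : vol G S = vol (out K G) S + (crs K S G).card := by
    have h3 : ∀ w ∈ S, ((TFP.star w G).card : ℚ) =
        (TFP.star w (out K G)).card + ((crs K S G).filter fun e => e.2.1 = w ∨ e.2.2 = w).card := by
      intro w hw
      have hwK : w ∉ K := fun h4 => disjoint_left.1 h h4 hw
      have h5 : TFP.star w G = TFP.star w (out K G) ∪
          (crs K S G).filter fun e => e.2.1 = w ∨ e.2.2 = w := by
        ext f
        unfold TFP.star out crs
        simp only [mem_union, mem_filter]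
        constructor
        · rintro ⟨h6, h7⟩
          by_cases h8 : f.2.1 ∉ K ∧ f.2.2 ∉ K
          · exact Or.inl ⟨⟨h6, h8⟩, h7⟩
          · right
            refine ⟨⟨h6, ?_⟩, h7⟩
            rcases h7 with h7 | h7
            · right
              rw [h7] at h8 ⊢
              refine ⟨?_, hw⟩
              by_contra h9
              exact h8 ⟨hwK, h9⟩
            · left
              rw [h7] at h8 ⊢
              refine ⟨?_, hw⟩
              by_contra h9
              exact h8 ⟨h9, hwK⟩
        · rintro (h6 | h6)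
          · exact ⟨h6.1.1, h6.2⟩
          · exact ⟨h6.1.1, h6.2⟩
      have h6 : Disjoint (TFP.star w (out K G))
          ((crs K S G).filter fun e => e.2.1 = w ∨ e.2.2 = w) := by
        rw [disjoint_left]
        intro f hf hf'
        unfold TFP.star out at hf
        unfold crs at hf'
        simp only [mem_filter] at hf hf'
        rcases hf'.1.2 with h7 | h7
        · exact hf.1.2.1 h7.1
        · exact hf.1.2.2 h7.1
      rw [h5, card_union_of_disjoint h6]
      push_cast
      rfl
    have h4 : ∑ w ∈ S, (((crs K S G).filter fun e => e.2.1 = w ∨ e.2.2 = w).card : ℚ) =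
        (crs K S G).card := by
      have h5 : ∀ e ∈ crs K S G, ∑ w ∈ S, (if e.2.1 = w ∨ e.2.2 = w then (1 : ℚ) else 0) = 1 := by
        intro e he
        unfold crs at he
        rw [mem_filter] at he
        rcases he.2 with ⟨h6, h7⟩ | ⟨h6, h7⟩
        · rw [sum_eq_single e.2.2]
          · rw [if_pos (Or.inr rfl)]
          · intro w hw hne
            rw [if_neg]
            rintro (h8 | h8)
            · exact disjoint_left.1 h h6 (h8 ▸ hw)
            · exact hne h8.symm
          · intro h8
            exact absurd h7 h8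
        · rw [sum_eq_single e.2.1]
          · rw [if_pos (Or.inl rfl)]
          · intro w hw hne
            rw [if_neg]
            rintro (h8 | h8)
            · exact hne h8.symm
            · exact disjoint_left.1 h h6 (h8 ▸ hw)
          · intro h8
            exact absurd h7 h8
      have h6 : ∀ w ∈ S, (((crs K S G).filter fun e => e.2.1 = w ∨ e.2.2 = w).card : ℚ) =
          ∑ e ∈ crs K S G, (if e.2.1 = w ∨ e.2.2 = w then (1 : ℚ) else 0) := by
        intro w _
        rw [sum_boole]
      rw [sum_congr rfl h6, sum_comm, sum_congr rfl h5, sum_const, nsmul_eq_mul, mul_one]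
    unfold vol
    rw [sum_congr rfl h3, sum_add_distrib, h4]
  rw [h1, h2]
  ring

theorem vol_nonneg (G : Finset Ed) (S : Finset ℕ) : 0 ≤ vol G S :=
  sum_nonneg fun _ _ => Nat.cast_nonneg _

/-- upper bound by the degrees -/
theorem vol_deg {G : Finset Ed} {D : ℕ} (hd : ∀ v, (TFP.star v G).card ≤ D) (S : Finset ℕ) :
    vol G S ≤ D * S.card := by
  unfold vol
  calc ∑ w ∈ S, ((TFP.star w G).card : ℚ) ≤ ∑ w ∈ S, (D : ℚ) :=
        sum_le_sum fun w _ => by exact_mod_cast hd w
    _ = D * S.card := by
        rw [sum_const, nsmul_eq_mul, mul_comm]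

/-- upper bound for a cluster of `u` in `G - e` -/
theorem vol_le {G : Finset Ed} {D : ℕ} (hd : ∀ v, (TFP.star v G).card ≤ D) {e : Ed} (he : e ∈ G)
    {v u : ℕ} (hvu : v ≠ u) (hJ : Jn e v u) {K : Finset ℕ} (hu : u ∈ K) :
    vol (G.erase e) K ≤ D * K.card - 1 - (if v ∈ K then 1 else 0) := by
  have h1 := vol_erase he hvu hJ K
  have h2 := vol_deg hd K
  rw [if_pos hu] at h1
  linarith

/-- upper bound by the number of edges -/
theorem vol_card {G : Finset Ed} (S : Finset ℕ) : vol G S ≤ 2 * G.card := by
  classical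
  have h1 : vol G S = ∑ e ∈ G, ∑ w ∈ S, (if e.2.1 = w ∨ e.2.2 = w then (1 : ℚ) else 0) := by
    unfold vol
    rw [sum_comm]
    refine sum_congr rfl fun w _ => ?_
    rw [sum_boole]
    rfl
  rw [h1]
  have h2 : ∀ e ∈ G, ∑ w ∈ S, (if e.2.1 = w ∨ e.2.2 = w then (1 : ℚ) else 0) ≤ 2 := by
    intro e _
    rw [sum_boole]
    have h3 : (S.filter fun w => e.2.1 = w ∨ e.2.2 = w) ⊆ {e.2.1, e.2.2} := by
      intro w hw
      rw [mem_filter] at hw
      rw [mem_insert, mem_singleton]
      rcases hw.2 with h4 | h4
      · exact Or.inl h4.symm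
      · exact Or.inr h4.symm
    have h4 := (card_le_card h3).trans card_le_two
    exact_mod_cast h4
  calc ∑ e ∈ G, ∑ w ∈ S, (if e.2.1 = w ∨ e.2.2 = w then (1 : ℚ) else 0) ≤ ∑ e ∈ G, (2 : ℚ) :=
        sum_le_sum h2
    _ = 2 * G.card := by
        rw [sum_const, nsmul_eq_mul, mul_comm]

theorem q_out_zero {lam y : ℚ} {K S : Finset ℕ} {G : Finset Ed} {v : ℕ} (hvK : v ∉ K)
    (h : ¬ Disjoint K S) : q lam y (out K G) v S = 0 := by
  classical
  obtain ⟨w, hwK, hwS⟩ := not_disjoint_iff.1 h
  unfold q ww
  by_cases hv : v ∈ S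
  · have h1 : cc (y - 1) S (out K G) = 0 := by
      unfold cc
      refine sum_eq_zero fun A hA => ?_
      exfalso
      rw [Finset.mem_filter, mem_powerset] at hA
      obtain ⟨hA1, hA2⟩ := hA
      have hwe : w ∉ ends A := by
        intro hwA
        unfold ends at hwA
        rw [mem_union, mem_image, mem_image] at hwA
        rcases hwA with ⟨f, hf, h1⟩ | ⟨f, hf, h1⟩
        · have h2 := hA1 hf
          unfold ins out at h2
          rw [mem_filter, mem_filter] at h2
          exact h2.1.2.1 (h1 ▸ hwK)
        · have h2 := hA1 hf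
          unfold ins out at h2
          rw [mem_filter, mem_filter] at h2
          exact h2.1.2.2 (h1 ▸ hwK)
      have h3 := hA2 w hwS v hv
      rw [← mem_comp, comp_not_ends hwe, mem_singleton] at h3
      exact hvK (h3 ▸ hwK)
    rw [h1]
    simp
  · rw [if_neg hv, zero_div]

theorem q_not_mem {lam y : ℚ} {S : Finset ℕ} (G : Finset Ed) {v : ℕ} (h : v ∉ S) :
    q lam y G v S = 0 := by
  unfold q ww
  rw [if_neg h, zero_div]

end Pool.Agent.TFU
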